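import Pool.Agent.N871.S17.Asm
import Pool.Agent.N916.MO.Hg
import Pool.Agent.N871.S15.Tors
import Pool.Agent.N871.S15.OneV
import Pool.Agent.N974.T15.Ex5
import Pool.Agent.N875.S15.Dens
import Pool.Agent.N877.S21.Dens
import Pool.Agent.N973.P21G.Fin
import Pool.Agent.N973.P21G.To
import Pool.Agent.N973.P21G.Fo
import Pool.Agent.N809.JT.Inpf
import Pool.Agent.N877.JX.Sets
import Pool.Agent.N972.JT.Four

/-!
# The joint law of the 2-parts of the formula for three curves without complex multiplication and the same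
# quadratic twist

For a squarefree integer `m` of any sign let `E_j(m)`, `j = 0, 1, 2`, be the twists by `ℚ(√m)` of `X_0(15)`, of
the curve `17a2 : y² + x y = x³ - 4 x² - x`, and of `X_0(21)`. These curves have no complex multiplication
and no two of them are isogenous. Let `z_j = L(E_j(m), 1) #E_j(m)(ℚ)_tors² / (Ω ∏ c_p)` be the orders of
`Ш(E_j(m)/ℚ)` predicted by the formula in rank zero. With no hypothesis on the ranks or on `Ш` we prove:
* for every squarefree `m` there are integers `y_0, y_1, y_2` with `z_j = y_j²`, and `y_j` is odd if and only if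
  `E_j(m)(ℚ)` is finite and `Ш(E_j(m)/ℚ)[2] = 0`, if and only if the 2-part of the formula holds for
  `E_j(m)` with `z_j` a unit at two; then the root number of `E_j(m)` is `+1`;
* the joint law of the three conditions: let `T` be a set of at least two of the three curves and `S` a subset
  of `T`; among the `m` of given sign and residue for which the root numbers of all the curves of `T` are `+1`,
  the 2-part holds for all the curves of `S` with the frequency `c_S w_S(m)`, where `c_S` is the product of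
  `η = ∏_{i ≥ 1} (1 - 2^{-i})`, if `X_0(15)` or `X_0(21)` are in `S`, and of `α = ∏_{i ≥ 1} (1 - 2^{1 - 2 i})`, if
  17a2 is in `S`; the weight `w_S(m)` is `1` or `1/2` if both `X_0(15)` and `X_0(21)` are in `S`, according to
  whether `m` is in the class `Same` or not, and otherwise it is `1`, but `4/3` if `X_0(21)` is in `S` and `m`
  is in the class `Exceptional`.  So the condition for 17a2 is independent of the two others, and these two
  are not independent of each other. In the class `Same` the conditions for `X_0(15)` and `X_0(21)` are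
  equivalent;
* the natural densities, among all squarefree `m` (ordered by `|m|` or by the discriminant of `ℚ(√m)`), of the
  `m` for which the 2-part holds for all the curves of `S` are `(433/1728) η α` for `{15, 17}`,
  `(443/3072) η` for `{15, 21}`, `(2461/9216) η α` for `{17, 21}` and `(8065/110592) η α` for all three;
  for at least one of the three curves the density is
  `(2737/3072) η + α/2 - (16393/36864) η α = 0.4131…`.

The single curves: `MP_9c97e9_nt.TwoPartTwistsX15` (helpers 875, 974, 871 and others),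
`MP_4a9ea6_nt.TwoPartTwistsX17` (helpers 871, 969 and others), `MP_92892c_nt.TwoPartTwistsX21` (see there).
The joint law: helpers 877, 809, 963, 972, 975, 916, 919, 969 (`MP_696deb_nt.ConductorsJointLaw`). This file:
helper877.
-/

set_option autoImplicit false
set_option linter.style.haveILetI false

open WeierstrassCurve MeasureTheory Filter Topology Finset

namespace Pool.Agent.Results.MP_92892c_nt.JointTwoPartThreeCurves

open scoped Classical

open Pool.Agent.TH841.SH.D (Sha)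

/-! ### the formula -/

/-- The curve given by the equation of `W` over the ring `R`. -/
abbrev base (W : WeierstrassCurve ℤ) (R : Type) [CommRing R] : WeierstrassCurve R :=
  W.map (Int.castRingHom R)

/-- `W` is a global minimal equation: `Δ ≠ 0` and `|Δ|` is minimal among the integral equations of the
same curve over `ℚ`. -/
def Minimal (W : WeierstrassCurve ℤ) : Prop :=
  W.Δ ≠ 0 ∧ ∀ (W' : WeierstrassCurve ℤ) (C : VariableChange ℚ), C • base W ℚ = base W' ℚ →
    |W.Δ| ≤ |W'.Δ|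

/-- The number of the affine points modulo `p`. -/
noncomputable def pts (W : WeierstrassCurve ℤ) (p : ℕ) : ℕ :=
  Nat.card {P : ZMod p × ZMod p // (base W (ZMod p)).toAffine.Equation P.1 P.2}

/-- `a_p = p + 1 - #W(𝔽_p)`, the points counted with the point at infinity. -/
noncomputable def a (W : WeierstrassCurve ℤ) (p : ℕ) : ℤ := p - pts W p

/-- `L` is the L-function of the minimal equation `W`: it is entire, and for `Re s > 3/2` it is given by
the Euler product with the factors `(1 - a_p p^(-s) + p^(1 - 2 s))⁻¹` if `p` does not divide `Δ` and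
`(1 - a_p p^(-s))⁻¹` otherwise. -/
def IsL (W : WeierstrassCurve ℤ) (L : ℂ → ℂ) : Prop :=
  Differentiable ℂ L ∧ ∀ s : ℂ, 3 / 2 < s.re →
    HasProd (fun p : Nat.Primes => (1 - (a W p : ℂ) * ((p : ℕ) : ℂ) ^ (-s) +
      (if ((p : ℕ) : ℤ) ∣ W.Δ then 0 else ((p : ℕ) : ℂ) ^ (1 - 2 * s)))⁻¹) (L s)

/-- The point `P` of `W` over `ℚ_p` reduces to a singular point of the curve modulo `p`: the coordinates
are integral and both partial derivatives of `y² + a₁ x y + a₃ y - x³ - a₂ x² - a₄ x - a₆` are in the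
maximal ideal. -/
def SingularReduction (W : WeierstrassCurve ℤ) (p : ℕ) [Fact p.Prime]
    (P : (base W ℚ_[p]).toAffine.Point) : Prop :=
  ∃ x y h, P = Affine.Point.some x y h ∧ ‖x‖ ≤ 1 ∧ ‖y‖ ≤ 1 ∧
    ‖W.a₁ * y - (3 * x ^ 2 + 2 * W.a₂ * x + W.a₄)‖ < 1 ∧ ‖2 * y + W.a₁ * x + W.a₃‖ < 1

/-- `c p` is the Tamagawa number `[W(ℚ_p) : W⁰(ℚ_p)]` for all primes `p`, where `W⁰(ℚ_p)` is the subgroup
of the points which do not have singular reduction; it is `1` if `p` does not divide `Δ`. -/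
def IsTamagawa (W : WeierstrassCurve ℤ) (c : ℕ → ℕ) : Prop :=
  ∀ (p : ℕ) [Fact p.Prime], (∃ H : AddSubgroup (base W ℚ_[p]).toAffine.Point,
    (∀ P, P ∈ H ↔ ¬ SingularReduction W p P) ∧ H.index = c p) ∧ (¬ (p : ℤ) ∣ W.Δ → c p = 1)

/-- The product of the Tamagawa numbers. -/
noncomputable def Tam (W : WeierstrassCurve ℤ) (c : ℕ → ℕ) : ℕ := ∏ p ∈ W.Δ.natAbs.primeFactors, c p

/-- `4 x³ + b₂ x² + 2 b₄ x + b₆ = (2 y + a₁ x + a₃)²`. -/
def cubic (W : WeierstrassCurve ℤ) (x : ℝ) : ℝ := 4 * x ^ 3 + W.b₂ * x ^ 2 + 2 * W.b₄ * x + W.b₆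

/-- `Ω = ∫_{W(ℝ)} |ω|` with `ω = dx / (2 y + a₁ x + a₃)`, as an integral over `x`: two real points lie
over each `x` with `cubic x > 0`. -/
noncomputable def Omega (W : WeierstrassCurve ℤ) : ℝ :=
  2 * ∫ x in {x : ℝ | 0 < cubic W x}, 1 / √(cubic W x)

/-- The order of the torsion subgroup of `W(ℚ)`. -/
noncomputable def torsOrder (W : WeierstrassCurve ℤ) : ℕ :=
  Nat.card (AddCommGroup.torsion (base W ℚ).toAffine.Point)

/-- The order of the Tate-Shafarevich group predicted by the formula in rank zero, for the value `l` of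
the L-function at `s = 1` and the Tamagawa numbers `c`: `l #W(ℚ)_tors² / (Ω ∏ c_p)`. -/
noncomputable def anOrder (W : WeierstrassCurve ℤ) (l : ℂ) (c : ℕ → ℕ) : ℂ :=
  l * (torsOrder W : ℂ) ^ 2 / ((Omega W : ℝ) * (Tam W c : ℂ))

/-- `W(ℚ)` is finite and `Ш(W/ℚ)` has no element of order two. -/
def RankZeroShaTwo (W : WeierstrassCurve ℤ) : Prop :=
  Finite (base W ℚ).toAffine.Point ∧ ∀ x : Sha (base W ℚ), 2 • x = 0 → x = 0

/-- The 2-part of the formula for `W` over `ℚ`, in the case that the predicted order of `Ш` is a unit at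
two: `W` is minimal, `L(W, s)` is entire, `L(W, 1) ≠ 0`, `W(ℚ)` is finite, the 2-primary part of
`Ш(W/ℚ)` is zero, and the predicted order of `Ш` is a rational number which is a unit at two. -/
def TwoPart (W : WeierstrassCurve ℤ) : Prop :=
  Minimal W ∧ Finite (base W ℚ).toAffine.Point ∧
  (∀ (n : ℕ) (x : Sha (base W ℚ)), 2 ^ n • x = 0 → x = 0) ∧
  ∃ (L : ℂ → ℂ) (c : ℕ → ℕ) (z : ℚ), IsL W L ∧ L 1 ≠ 0 ∧ IsTamagawa W c ∧ 0 < Tam W c ∧
    0 < Omega W ∧ 0 < torsOrder W ∧ anOrder W (L 1) c = z ∧ z ≠ 0 ∧ padicValRat 2 z = 0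

/-- The criterion for `W`: the equation is minimal, `L(W, s)` is entire, the predicted order of `Ш` in rank
zero is the square of an integer `y`, `y` is odd if and only if `W(ℚ)` is finite and `Ш(W/ℚ)[2] = 0`, and
this is equivalent to the 2-part of the formula. -/
def Criterion (W : WeierstrassCurve ℤ) : Prop :=
  Minimal W ∧
  (∃ (L : ℂ → ℂ) (c : ℕ → ℕ) (y : ℤ), IsL W L ∧ IsTamagawa W c ∧ 0 < Tam W c ∧ 0 < Omega W ∧
    0 < torsOrder W ∧ anOrder W (L 1) c = (y : ℂ) ^ 2 ∧ (Odd y ↔ RankZeroShaTwo W)) ∧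
  (RankZeroShaTwo W ↔ TwoPart W)

/-! ### the three curves and their twists -/

/-- The quadratic twist of `X_0(15)` by `m`: `y² + x y = x³ - ((7 m + 1)/4) x² - 9 m² x` if `m ≡ 1` modulo
`4`, `y² = x (x + 9 m) (x - 16 m)` otherwise. -/
def E15 (m : ℤ) : WeierstrassCurve ℤ :=
  if m % 4 = 1 then ⟨1, -((7 * m + 1) / 4), 0, -(9 * m ^ 2), 0⟩ else ⟨0, -7 * m, 0, -144 * m ^ 2, 0⟩

/-- The quadratic twist of `y² + x y = x³ - 4 x² - x` (17a2) by `m`:
`y² + x y = x³ - ((15 m + 1)/4) x² - m² x` if `m ≡ 1` modulo `4`, `y² = x (x + m) (x - 16 m)` otherwise. -/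
def E17 (m : ℤ) : WeierstrassCurve ℤ :=
  if m % 4 = 1 then ⟨1, -((15 * m + 1) / 4), 0, -(m ^ 2), 0⟩ else ⟨0, -15 * m, 0, -16 * m ^ 2, 0⟩

/-- The quadratic twist of `X_0(21)` by `m`: `y² + x y = x³ + ((25 m - 1)/4) x² + 9 m² x` if `m ≡ 1` modulo
`4`, `y² = x (x - 9 m) (x + 7 m)` otherwise. -/
def E21 (m : ℤ) : WeierstrassCurve ℤ :=
  if m % 4 = 1 then ⟨1, (25 * m - 1) / 4, 0, 9 * m ^ 2, 0⟩ else ⟨0, -2 * m, 0, -63 * m ^ 2, 0⟩

/-- `0`, `1`, `2` for the curves `X_0(15)`, 17a2, `X_0(21)`: the twist by `m`. -/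
def curve (j : Fin 3) (m : ℤ) : WeierstrassCurve ℤ :=
  if j = 0 then E15 m else if j = 1 then E17 m else E21 m

/-- The twist by `m` of the curve `j` has root number `+1`, in terms of the sign and the residues of the
squarefree integer `m`. -/
def Root (j : Fin 3) (m : ℤ) : Prop :=
  if j = 0 then (if m < 0 then (-1 : ℤ) else 1) * (if m % 3 = 2 then -1 else 1) *
    (if m % 5 = 1 ∨ m % 5 = 4 then 1 else -1) = 1
  else if j = 1 then (0 < m ∧ jacobiSym m 17 = 1) ∨ (m < 0 ∧ jacobiSym m 17 ≠ 1)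
  else (if m < 0 then (-1 : ℤ) else 1) * (if m % 3 = 1 then 1 else -1) *
    (if m % 7 = 3 ∨ m % 7 = 5 ∨ m % 7 = 6 then -1 else 1) = 1

/-- The 2-part of the formula holds for the twists by `m` of all the curves of `S`, with predicted orders of
`Ш` which are units at two. -/
def All (S : Finset (Fin 3)) (m : ℤ) : Prop := ∀ j ∈ S, TwoPart (curve j m)

/-- The root numbers of the twists by `m` of all the curves of `T` are `+1`. -/
def Roots (T : Finset (Fin 3)) (m : ℤ) : Prop := ∀ j ∈ T, Root j m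

/-! ### the densities -/

/-- `∏_{i ≥ 1} (1 - 2^{-i})`. -/
noncomputable def eta : ℝ := ∏' i : ℕ, (1 - (1 / 2 : ℝ) ^ (i + 1))

/-- `∏_{i ≥ 1} (1 - 2^{1 - 2 i})`. -/
noncomputable def alpha : ℝ := ∏' i : ℕ, (1 - (1 / 2 : ℝ) ^ (2 * i + 1))

/-- `D` is a fundamental discriminant (`1` included). -/
def Fund (D : ℤ) : Prop := (Squarefree D ∧ D % 4 = 1) ∨
  ∃ m : ℤ, D = 4 * m ∧ Squarefree m ∧ (m % 4 = 2 ∨ m % 4 = 3)

/-- The squarefree integer `m` with `ℚ(√m) = ℚ(√D)`. -/
def core (D : ℤ) : ℤ := if D % 2 = 1 then D else D / 4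

/-- The sum of the weights `w m` of the squarefree integers `m`, `|m| ≤ X`, with the property `P`. -/
noncomputable def sumM (w : ℤ → ℝ) (P : ℤ → Prop) (X : ℕ) : ℝ :=
  ∑ m ∈ (Icc (-(X : ℤ)) X).filter (fun m => Squarefree m ∧ P m), w m

/-- The sum of the weights `w (core D)` of the fundamental discriminants `D`, `|D| ≤ X`, for which
`core D` has the property `P`. -/
noncomputable def sumD (w : ℤ → ℝ) (P : ℤ → Prop) (X : ℕ) : ℝ :=
  ∑ D ∈ (Icc (-(X : ℤ)) X).filter (fun D => Fund D ∧ P (core D)), w (core D)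

/-- `P` has the natural density `δ` among the squarefree integers, ordered by `|m|`, and also ordered by
the discriminant of `ℚ(√m)`. -/
def HasDensity (P : ℤ → Prop) (δ : ℝ) : Prop :=
  Tendsto (fun X : ℕ => sumM (fun _ => 1) P X / sumM (fun _ => 1) (fun _ => True) X) atTop (𝓝 δ) ∧
  Tendsto (fun X : ℕ => sumD (fun _ => 1) P X / sumD (fun _ => 1) (fun _ => True) X) atTop (𝓝 δ)

/-- In the class `Q` the property `P` has the frequency `w m`: the number of the `m` of `Q`, `|m| ≤ X` (or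
the discriminant of `ℚ(√m)` is at most `X`), with the property `P` is, up to `o(X)`, the sum of the `w m`
over all the `m` of `Q`. -/
def HasFrequency (Q P : ℤ → Prop) (w : ℤ → ℝ) : Prop :=
  Tendsto (fun X : ℕ => (sumM (fun _ => 1) (fun m => Q m ∧ P m) X - sumM w Q X) / (X : ℝ)) atTop (𝓝 0) ∧
  Tendsto (fun X : ℕ => (sumD (fun _ => 1) (fun m => Q m ∧ P m) X - sumD w Q X) / (X : ℝ)) atTop (𝓝 0)

/-- `m` is negative, `3 ∣ m`, `5` is not split and `7` is not inert in `ℚ(√m)`. -/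
def Same (m : ℤ) : Prop := m < 0 ∧ m % 3 = 0 ∧ ¬ (m % 5 = 1 ∨ m % 5 = 4) ∧
  ¬ (m % 7 = 3 ∨ m % 7 = 5 ∨ m % 7 = 6)

/-- `m` is positive, `m ≡ 1` modulo `3`, and `7` is not inert in `ℚ(√m)`. -/
def Exceptional (m : ℤ) : Prop := 0 < m ∧ m % 3 = 1 ∧ ¬ (m % 7 = 3 ∨ m % 7 = 5 ∨ m % 7 = 6)

/-- The frequency for the set `S` of curves. -/
noncomputable def freq (S : Finset (Fin 3)) (m : ℤ) : ℝ :=
  (if 0 ∈ S ∨ 2 ∈ S then eta else 1) * (if 1 ∈ S then alpha else 1) *
    (if 0 ∈ S ∧ 2 ∈ S then (if Same m then 1 else 1 / 2)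
      else if 2 ∈ S ∧ Exceptional m then 4 / 3 else 1)

/-- The class given by the sign and the residue modulo `q`: `A` for `m > 0`, `B` for `m < 0`. -/
def Class (q : ℕ) (A B : Set ℤ) (m : ℤ) : Prop :=
  (0 < m ∧ m % (q : ℤ) ∈ A) ∨ (m < 0 ∧ m % (q : ℤ) ∈ B)

section proof

open Pool.Agent.N875.X15 (Fin2 fin2_pow)
open Pool.Agent.N919.BS (NS NF)
open Pool.Agent.N809.JT (RR RT GG WS WF Cs cst wt Eqc)

lemma two_iff {A : Type} [AddCommGroup A] : (∀ x : A, 2 • x = 0 → x = 0) ↔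
    ∀ x : A, x + x = 0 → x = 0 := by
  refine forall_congr' fun x => ?_
  rw [two_nsmul]

lemma rz_iff (W : WeierstrassCurve ℤ) : RankZeroShaTwo W ↔ Fin2 (base W ℚ) :=
  and_congr Iff.rfl two_iff

lemma rz_pow {W : WeierstrassCurve ℤ} (h : RankZeroShaTwo W) (k : ℕ) (x : Sha (base W ℚ))
    (hx : 2 ^ k • x = 0) : x = 0 := fin2_pow ((rz_iff W).1 h) k x hx

lemma omega_eq (W : WeierstrassCurve ℤ) : Omega W = Pool.Agent.Y700.Omega W := by
  unfold Omega Pool.Agent.Y700.Omega
  rw [← integral_const_mul]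
  show ∫ x in {x : ℝ | 0 < Pool.Agent.Y700.psi W x}, 2 * (1 / √(Pool.Agent.Y700.psi W x)) = _
  congr 1
  funext x
  rw [mul_one_div]

/-- the Tamagawa numbers -/
noncomputable def cT (W : WeierstrassCurve ℤ) (p : ℕ) : ℕ :=
  if h : p.Prime then (haveI := Fact.mk h; Pool.Agent.Y700.tam W p) else 1

lemma isTam (W : WeierstrassCurve ℤ) : IsTamagawa W (cT W) := by
  intro p hp
  have hc : cT W p = Pool.Agent.Y700.tam W p := by
    unfold cT
    rw [dif_pos hp.out]
  refine ⟨⟨Pool.Agent.Y700.E0 W p, fun P => ?_, by rw [hc]; rfl⟩, fun h => ?_⟩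
  · rw [Pool.Agent.Y809.BSD14.t_E0 W p P]
    constructor
    · rintro h ⟨x, y, h1, rfl, h2⟩
      exact h x y h1 rfl h2
    · intro h x y h1 h2 h3
      exact h ⟨x, y, h1, h2, h3⟩
  · rw [hc]
    exact Pool.Agent.Y809.BSD14.t_TGOOD W p h

lemma tam_eq (W : WeierstrassCurve ℤ) : Tam W (cT W) = Pool.Agent.Y700.tamProd W := rfl

/-! ### the criterion for each curve -/

theorem crit_of {W : WeierstrassCurve ℤ} (hmin : Minimal W) {t : ℕ} (ht : 0 < t)
    (hto : Nat.card (AddCommGroup.torsion (base W ℚ).toAffine.Point) = t)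
    (hΩ : 0 < Pool.Agent.Y700.Omega W) (hT : 0 < Pool.Agent.Y700.tamProd W) {f : ℂ → ℂ} {y : ℤ}
    (hf : Pool.Agent.Y700.IsL W f) (hy : Odd y ↔ Fin2 (base W ℚ))
    (hv : f 1 * (t : ℂ) ^ 2 = (y : ℂ) ^ 2 * (((Pool.Agent.Y700.Omega W : ℝ) : ℂ) *
      ((Pool.Agent.Y700.tamProd W : ℕ) : ℂ))) : Criterion W := by
  have hΩ' : 0 < Omega W := by
    rw [omega_eq]
    exact hΩ
  have hT' : 0 < Tam W (cT W) := hT
  have hto' : torsOrder W = t := hto
  have ht' : 0 < torsOrder W := by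
    rw [hto']
    exact ht
  have hL : IsL W f := hf
  have han : anOrder W (f 1) (cT W) = (y : ℂ) ^ 2 := by
    unfold anOrder
    have h1 : ((Omega W : ℝ) : ℂ) ≠ 0 := by exact_mod_cast hΩ'.ne'
    have h2 : ((Tam W (cT W) : ℕ) : ℂ) ≠ 0 := by exact_mod_cast hT'.ne'
    rw [div_eq_iff (mul_ne_zero h1 h2), hto', omega_eq, tam_eq]
    exact hv
  have hyR : Odd y ↔ RankZeroShaTwo W := hy.trans (rz_iff W).symm
  refine ⟨hmin, ⟨f, cT W, y, hL, isTam W, hT', hΩ', ht', han, hyR⟩, fun hR => ?_, fun hP => ?_⟩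
  · have hY1 := hyR.2 hR
    have hY0 : y ≠ 0 := by
      rintro h0
      rw [h0] at hY1
      exact absurd hY1 (by decide)
    have hYq : (y : ℚ) ≠ 0 := by exact_mod_cast hY0
    refine ⟨hmin, hR.1, fun k x hx => rz_pow hR k x hx, f, cT W, (y : ℚ) ^ 2, hL, ?_, isTam W, hT',
      hΩ', ht', by rw [han]; push_cast; rfl, pow_ne_zero 2 hYq, ?_⟩
    · intro h0
      rw [h0] at han
      unfold anOrder at han
      rw [zero_mul, zero_div] at han
      have h3 : (y : ℂ) ^ 2 ≠ 0 := pow_ne_zero 2 (by exact_mod_cast hY0)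
      exact h3 han.symm
    · have hfact : Fact (Nat.Prime 2) := ⟨Nat.prime_two⟩
      have hv2 : padicValRat 2 (y : ℚ) = 0 := by
        rw [padicValRat.of_int]
        have : padicValInt 2 y = 0 := by
          refine padicValInt.eq_zero_of_not_dvd ?_
          intro hd
          have h5 := Int.odd_iff.1 hY1
          omega
        rw [this]
        rfl
      rw [padicValRat.pow, hv2]
      simp
  · refine ⟨hP.2.1, fun x hx => hP.2.2.1 1 x ?_⟩
    rwa [pow_one]

theorem crit17 {m : ℤ} (hs : Squarefree m) : Criterion (E17 m) := by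
  obtain ⟨hmin, ht, htor, hΩ, f, y, hf, hy, hval⟩ := Pool.Agent.N871.S17.strong hs
  refine crit_of hmin (t := 4) (by norm_num) htor hΩ ?_ hf hy ?_
  · show 0 < Pool.Agent.Y700.tamProd (Pool.Agent.N871.S17.EE m)
    rw [ht]
    unfold Pool.Agent.N871.S17.t17
    refine Nat.mul_pos (pow_pos (by norm_num) _) ?_
    split_ifs <;> norm_num
  · show f 1 * ((4 : ℕ) : ℂ) ^ 2 = (y : ℂ) ^ 2 *
      (((Pool.Agent.Y700.Omega (Pool.Agent.N871.S17.EE m) : ℝ) : ℂ) *
        ((Pool.Agent.Y700.tamProd (Pool.Agent.N871.S17.EE m) : ℕ) : ℂ))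
    rw [ht, ← hval]
    norm_num

theorem tam15 {m : ℤ} (hs : Squarefree m) : 0 < Pool.Agent.Y700.tamProd (E15 m) := by
  show 0 < Pool.Agent.Y700.tamProd (Pool.Agent.N218.T15.EE m)
  rw [Pool.Agent.N218.T15.tamProd_EE hs]
  unfold Pool.Agent.N218.T15.t3 Pool.Agent.N218.T15.t5
  refine Nat.mul_pos (pow_pos (by norm_num) _) (Nat.mul_pos ?_ ?_) <;> split_ifs <;> norm_num

theorem tam21 {m : ℤ} (hs : Squarefree m) : 0 < Pool.Agent.Y700.tamProd (E21 m) := by
  show 0 < Pool.Agent.Y700.tamProd (Pool.Agent.N218.T21.EE m)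
  rw [Pool.Agent.N218.T21.tamProd_EE hs]
  unfold Pool.Agent.N218.T21.t3 Pool.Agent.N218.T21.t7
  refine Nat.mul_pos (pow_pos (by norm_num) _) (Nat.mul_pos ?_ ?_) <;> split_ifs <;> norm_num

theorem crit15 {m : ℤ} (hs : Squarefree m) : Criterion (E15 m) := by
  have hmin : Minimal (E15 m) := Pool.Agent.N218.T15.min_EE hs
  by_cases h1 : m = 1
  · subst h1
    obtain ⟨hΩ, f, hf, hv⟩ := Pool.Agent.N871.S15.exact_one
    refine crit_of hmin (t := 8) (by norm_num) Pool.Agent.N871.S15.tors_EE_one hΩ (tam15 hs) hf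
      (y := 1) (iff_of_true (by decide) Pool.Agent.N871.S15.fin2_one) ?_
    rw [hv]
    push_cast
    show _ = (1 : ℂ) ^ 2 * (((Pool.Agent.Y700.Omega (Pool.Agent.N218.T15.EE 1) : ℝ) : ℂ) *
      ((Pool.Agent.Y700.tamProd (Pool.Agent.N218.T15.EE 1) : ℕ) : ℂ))
    ring
  by_cases h2 : m = -1
  · subst h2
    obtain ⟨hΩ, f, hf, hv⟩ := Pool.Agent.N871.S15.exact_neg_one
    refine crit_of hmin (t := 8) (by norm_num) Pool.Agent.N871.S15.tors_EE_neg_one hΩ (tam15 hs) hf
      (y := 1) (iff_of_true (by decide) Pool.Agent.N871.S15.fin2_neg_one) ?_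
    rw [hv]
    push_cast
    show _ = (1 : ℂ) ^ 2 * (((Pool.Agent.Y700.Omega (Pool.Agent.N218.T15.EE (-1)) : ℝ) : ℂ) *
      ((Pool.Agent.Y700.tamProd (Pool.Agent.N218.T15.EE (-1)) : ℕ) : ℂ))
    ring
  obtain ⟨hΩ, f, y, hf, hy, hv⟩ := Pool.Agent.N974.T15.exact15 hs h1 h2
  refine crit_of hmin (t := 4) (by norm_num) (Pool.Agent.N871.S15.tors_EE hs h1 h2) hΩ (tam15 hs) hf
    hy ?_
  rw [hv]
  push_cast
  show _ = (y : ℂ) ^ 2 * (((Pool.Agent.Y700.Omega (Pool.Agent.N218.T15.EE m) : ℝ) : ℂ) *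
    ((Pool.Agent.Y700.tamProd (Pool.Agent.N218.T15.EE m) : ℕ) : ℂ))
  ring

theorem crit21 {m : ℤ} (hs : Squarefree m) : Criterion (E21 m) := by
  have hmin : Minimal (E21 m) := Pool.Agent.N218.T21.min_EE hs
  by_cases h1 : m = 1
  · subst h1
    obtain ⟨hΩ, f, hf, hv⟩ := Pool.Agent.N973.P21G.one_valX
    refine crit_of hmin (t := 8) (by norm_num) Pool.Agent.N973.P21G.tor_eight hΩ (tam21 hs) hf
      (y := 1) (iff_of_true (by decide) Pool.Agent.N973.P21G.fin2_one) ?_
    rw [hv]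
    push_cast
    show _ = (1 : ℂ) ^ 2 * (((Pool.Agent.Y700.Omega (Pool.Agent.N218.T21.EE 1) : ℝ) : ℂ) *
      ((Pool.Agent.Y700.tamProd (Pool.Agent.N218.T21.EE 1) : ℕ) : ℂ))
    ring
  obtain ⟨hΩ, f, y, hf, hy, hv⟩ := Pool.Agent.N973.P21G.vl_allX hs h1
  refine crit_of hmin (t := 4) (by norm_num) (Pool.Agent.N973.P21G.tor_four m hs h1) hΩ (tam21 hs) hf
    (hy.trans (Pool.Agent.N877.S21.fin2_EE hs h1).symm) ?_
  rw [hv]
  push_cast
  show _ = (y : ℂ) ^ 2 * (((Pool.Agent.Y700.Omega (Pool.Agent.N218.T21.EE m) : ℝ) : ℂ) *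
    ((Pool.Agent.Y700.tamProd (Pool.Agent.N218.T21.EE m) : ℕ) : ℂ))
  ring

theorem crit (j : Fin 3) {m : ℤ} (hs : Squarefree m) : Criterion (curve j m) := by
  unfold curve
  split_ifs
  · exact crit15 hs
  · exact crit17 hs
  · exact crit21 hs

/-! ### the criteria by the arithmetic of `m` -/

theorem root_iff (j : Fin 3) (m : ℤ) : Root j m ↔ RT j m := by
  fin_cases j
  · exact (decide_eq_true_iff (p := (if m < 0 then (-1 : ℤ) else 1) *
      (if m % 3 = 2 then -1 else 1) * (if m % 5 = 1 ∨ m % 5 = 4 then 1 else -1) = 1)).symm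
  · exact Iff.rfl
  · exact (decide_eq_true_iff (p := (if m < 0 then (-1 : ℤ) else 1) *
      (if m % 3 = 1 then 1 else -1) *
        (if m % 7 = 3 ∨ m % 7 = 5 ∨ m % 7 = 6 then -1 else 1) = 1)).symm

theorem rz_curve (j : Fin 3) (m : ℤ) (hs : Squarefree m) (h1 : m ≠ 1) (h2 : m ≠ -1) :
    RR j m ↔ RankZeroShaTwo (curve j m) := by
  fin_cases j
  · have e : RankZeroShaTwo (curve 0 m) ↔ Pool.Agent.N809.PQ.Sg15 m := by
      have e1 : RankZeroShaTwo (E15 m) ↔ Fin2 (Pool.Agent.N875.X15.EQm m) :=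
        (rz_iff _).trans (Pool.Agent.N875.S15.fin2_EE hs)
      refine e1.trans ((Pool.Agent.N875.D15.fin2_iff_sg15 hs).trans ?_)
      constructor
      · rintro (h | h | h)
        · exact h
        · exact absurd h h1
        · exact absurd h h2
      · exact Or.inl
    exact (Pool.Agent.N809.JT.k15 m hs h1 h2).symm.trans e.symm
  · have e : RankZeroShaTwo (curve 1 m) ↔ Pool.Agent.N919.BS.Rt17 m ∧ Pool.Agent.N916.MO.G17 m :=
      (rz_iff _).trans (Pool.Agent.N871.S17.good_EE hs)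
    exact (Pool.Agent.N809.JT.k17 m hs h1 h2).symm.trans e.symm
  · have e : RankZeroShaTwo (curve 2 m) ↔ Pool.Agent.N809.PQ.Sg21 m :=
      (rz_iff _).trans (Pool.Agent.N877.S21.fin2_EE hs h1)
    exact (Pool.Agent.N809.JT.k21 m hs h1 h2).symm.trans e.symm

theorem two_curve (j : Fin 3) (m : ℤ) (hs : Squarefree m) (h1 : m ≠ 1) (h2 : m ≠ -1) :
    RR j m ↔ TwoPart (curve j m) := (rz_curve j m hs h1 h2).trans (crit j hs).2.2

theorem root_of (j : Fin 3) {m : ℤ} (hs : Squarefree m) (h : TwoPart (curve j m)) : Root j m := by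
  rw [root_iff]
  by_cases h1 : m = 1
  · subst h1
    fin_cases j
    · show Pool.Agent.N916.PQ.f15 1 = true
      decide
    · have e : RankZeroShaTwo (curve 1 1) ↔ Pool.Agent.N919.BS.Rt17 1 ∧ Pool.Agent.N916.MO.G17 1 :=
        (rz_iff _).trans (Pool.Agent.N871.S17.good_EE hs)
      exact (e.1 ((crit 1 hs).2.2.2 h)).1
    · show Pool.Agent.N809.Red21.f21 1 = true
      decide
  by_cases h2 : m = -1
  · subst h2
    fin_cases j
    · show Pool.Agent.N916.PQ.f15 (-1) = true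
      decide
    · have e : RankZeroShaTwo (curve 1 (-1)) ↔
          Pool.Agent.N919.BS.Rt17 (-1) ∧ Pool.Agent.N916.MO.G17 (-1) :=
        (rz_iff _).trans (Pool.Agent.N871.S17.good_EE hs)
      exact (e.1 ((crit 1 hs).2.2.2 h)).1
    · have e : RankZeroShaTwo (curve 2 (-1)) ↔ Pool.Agent.N809.PQ.Sg21 (-1) :=
        (rz_iff _).trans (Pool.Agent.N877.S21.fin2_EE hs h1)
      exact Pool.Agent.N916.PQ.L21.f21_of_sg hs (e.1 ((crit 2 hs).2.2.2 h))
  exact ((Pool.Agent.N809.JT.rr_iff j hs h1 h2).1 ((two_curve j m hs h1 h2).2 h)).1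

theorem same_iff {m : ℤ} (hs : Squarefree m) (h : Same m) :
    TwoPart (curve 0 m) ↔ TwoPart (curve 2 m) := by
  have h1 : m ≠ 1 := by
    rintro rfl
    exact absurd h.1 (by decide)
  have h2 : m ≠ -1 := by
    rintro rfl
    exact absurd h.2.1 (by decide)
  have h4 : Pool.Agent.N972.JT.T4 m := h
  obtain ⟨e1, e2⟩ := Pool.Agent.N972.JT.t4_iff hs h4
  rw [← two_curve 0 m hs h1 h2, ← two_curve 2 m hs h1 h2]
  exact (Pool.Agent.N809.JT.k15 m hs h1 h2).symm.trans ((e1.trans e2.symm).trans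
    (Pool.Agent.N809.JT.k21 m hs h1 h2))

/-! ### the joint law -/

theorem sumM_one (P : ℤ → Prop) (X : ℕ) : sumM (fun _ => 1) P X = (NS P X : ℝ) := by
  unfold sumM Pool.Agent.N919.BS.NS
  rw [sum_const, nsmul_eq_mul, mul_one]

theorem sumD_one (P : ℤ → Prop) (X : ℕ) : sumD (fun _ => 1) P X = (NF P X : ℝ) := by
  unfold sumD Pool.Agent.N919.BS.NF
  rw [sum_const, nsmul_eq_mul, mul_one]
  rfl

theorem freq_eq (S : Finset (Fin 3)) (m : ℤ) : freq S m = cst S * wt S m := by
  have e : Exceptional m ↔ Pool.Agent.N809.Red21.fD m = true :=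
    (Pool.Agent.N809.Red21.fD_iff m).symm
  unfold freq Pool.Agent.N809.JT.cst Pool.Agent.N809.JT.wt
  congr 1
  by_cases h : 0 ∈ S ∧ 2 ∈ S
  · rw [if_pos h, if_pos h]
    rfl
  · rw [if_neg h, if_neg h]
    exact if_congr (and_congr_right fun _ => e) rfl rfl

theorem sumM_freq (S : Finset (Fin 3)) (Q : ℤ → Prop) (X : ℕ) :
    sumM (freq S) Q X = cst S * WS (wt S) Q X := by
  unfold sumM Pool.Agent.N809.JT.WS
  rw [mul_sum]
  exact sum_congr rfl fun m _ => freq_eq S m

theorem sumD_freq (S : Finset (Fin 3)) (Q : ℤ → Prop) (X : ℕ) :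
    sumD (freq S) Q X = cst S * WF (wt S) Q X := by
  unfold sumD Pool.Agent.N809.JT.WF
  rw [mul_sum]
  exact sum_congr rfl fun m _ => freq_eq S _

theorem joint {S T : Finset (Fin 3)} (hST : S ⊆ T) {q : ℕ} (hq : 0 < q) (A B : Set ℤ) :
    HasFrequency (fun m => Roots T m ∧ Class q A B m) (All S) (freq S) := by
  obtain ⟨g1, g2⟩ := Pool.Agent.N809.JT.main_cls Pool.Agent.N809.JT.inp S T hST hq A B
  have key : ∀ m, Squarefree m → m ≠ 1 → m ≠ -1 →
      (((∀ j ∈ T, RT j m) ∧ Cs q A B m) ∧ (∀ j ∈ S, RR j m) ↔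
        (Roots T m ∧ Class q A B m) ∧ All S m) := by
    intro m hs e1 e2
    refine and_congr (and_congr (forall_congr' fun j => forall_congr' fun _ => (root_iff j m).symm)
      Iff.rfl) (forall_congr' fun j => forall_congr' fun _ => two_curve j m hs e1 e2)
  have eQ : (fun m => (∀ j ∈ T, RT j m) ∧ Cs q A B m) = fun m => Roots T m ∧ Class q A B m :=
    funext fun m => propext (and_congr (forall_congr' fun j => forall_congr' fun _ =>
      (root_iff j m).symm) Iff.rfl)
  rw [eQ] at g1 g2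
  constructor
  · refine (Pool.Agent.N809.JT.close_w g1 (fun X => Pool.Agent.N969.Den.NS_close key X)
      (fun X => Pool.Agent.N969.Den.NS_close (fun d a b c => (key d a b c).symm) X)).congr
        fun X => ?_
    rw [sumM_one, sumM_freq]
  · refine (Pool.Agent.N809.JT.close_w g2 (fun X => Pool.Agent.N969.Den.NF_close key X)
      (fun X => Pool.Agent.N969.Den.NF_close (fun d a b c => (key d a b c).symm) X)).congr
        fun X => ?_
    rw [sumD_one, sumD_freq]

theorem dens_of {P Q : ℤ → Prop} {δ : ℝ}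
    (h : ∀ m, Squarefree m → m ≠ 1 → m ≠ -1 → (P m ↔ Q m))
    (h1 : Tendsto (fun X : ℕ => (NS P X : ℝ) / (NS (fun _ => True) X : ℝ)) atTop (𝓝 δ))
    (h2 : Tendsto (fun X : ℕ => (NF P X : ℝ) / (NF (fun _ => True) X : ℝ)) atTop (𝓝 δ)) :
    HasDensity Q δ := by
  constructor
  · refine (Pool.Agent.N963.JT.NS_cl h h1 Pool.Agent.N969.Den.NS_top).congr fun X => ?_
    rw [sumM_one, sumM_one]
  · refine (Pool.Agent.N963.JT.NF_cl h h2 Pool.Agent.N969.Den.NF_top).congr fun X => ?_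
    rw [sumD_one, sumD_one]

theorem dens_S {S : Finset (Fin 3)} (hS : S.Nonempty) : HasDensity (All S) (Pool.Agent.N877.JX.jd S) :=
  dens_of (fun m hs e1 e2 => forall_congr' fun j => forall_congr' fun _ =>
      two_curve j m hs e1 e2)
    (Pool.Agent.N877.JX.lim_S (Pool.Agent.N809.JT.tot_sf Pool.Agent.N809.JT.inp
      Pool.Agent.N809.JT.dn_ns) S hS)
    (Pool.Agent.N877.JX.lim_S (Pool.Agent.N809.JT.tot_fd Pool.Agent.N809.JT.inp
      Pool.Agent.N809.JT.dn_nf) S hS)

theorem ex3 (F : Fin 3 → Prop) : (F 0 ∨ F 1 ∨ F 2) ↔ ∃ j, F j := by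
  constructor
  · rintro (h | h | h)
    · exact ⟨0, h⟩
    · exact ⟨1, h⟩
    · exact ⟨2, h⟩
  · rintro ⟨j, h⟩
    fin_cases j
    · exact Or.inl h
    · exact Or.inr (Or.inl h)
    · exact Or.inr (Or.inr h)

theorem dens_or : HasDensity (fun m => ∃ j, TwoPart (curve j m))
    (2737 / 3072 * eta + alpha / 2 - 16393 / 36864 * (eta * alpha)) :=
  dens_of (P := fun m => RR 0 m ∨ RR 1 m ∨ RR 2 m)
    (fun m hs e1 e2 => (ex3 fun j => RR j m).trans
      (exists_congr fun j => two_curve j m hs e1 e2))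
    (Pool.Agent.N809.JT.tot_sf Pool.Agent.N809.JT.inp Pool.Agent.N809.JT.dn_ns).or
    (Pool.Agent.N809.JT.tot_fd Pool.Agent.N809.JT.inp Pool.Agent.N809.JT.dn_nf).or

theorem bounds : 0.2887 < eta ∧ eta < 0.2889 ∧ 0.4194 < alpha ∧ alpha < 0.4195 :=
  ⟨Pool.Agent.N916.GB.eta_bounds.1, Pool.Agent.N916.GB.eta_bounds.2,
    Pool.Agent.Y948.CQ.t_C2.2.2.2.1, Pool.Agent.Y948.CQ.t_C2.2.2.2.2⟩

theorem value : 0.413 < 2737 / 3072 * eta + alpha / 2 - 16393 / 36864 * (eta * alpha) ∧
    2737 / 3072 * eta + alpha / 2 - 16393 / 36864 * (eta * alpha) < 0.4133 := by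
  obtain ⟨h1, h2, h3, h4⟩ := bounds
  constructor
  · nlinarith [mul_pos (sub_pos.2 h1) (sub_pos.2 h3), mul_pos (sub_pos.2 h1) (sub_pos.2 h4),
      mul_pos (sub_pos.2 h2) (sub_pos.2 h3), mul_pos (sub_pos.2 h2) (sub_pos.2 h4)]
  · nlinarith [mul_pos (sub_pos.2 h1) (sub_pos.2 h3), mul_pos (sub_pos.2 h1) (sub_pos.2 h4),
      mul_pos (sub_pos.2 h2) (sub_pos.2 h3), mul_pos (sub_pos.2 h2) (sub_pos.2 h4)]

theorem dens01 : HasDensity (All {0, 1}) (433 / 1728 * (eta * alpha)) := by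
  have h := dens_S (S := {0, 1}) (by decide)
  have e : Pool.Agent.N877.JX.jd {0, 1} = 433 / 1728 * (eta * alpha) := by
    unfold Pool.Agent.N877.JX.jd
    rw [if_neg (by decide), if_neg (by decide), if_neg (by decide), if_pos rfl]
    rfl
  rwa [e] at h

theorem dens02 : HasDensity (All {0, 2}) (443 / 3072 * eta) := by
  have h := dens_S (S := {0, 2}) (by decide)
  have e : Pool.Agent.N877.JX.jd {0, 2} = 443 / 3072 * eta := by
    unfold Pool.Agent.N877.JX.jd
    rw [if_neg (by decide), if_neg (by decide), if_neg (by decide), if_neg (by decide), if_pos rfl]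
    rfl
  rwa [e] at h

theorem dens12 : HasDensity (All {1, 2}) (2461 / 9216 * (eta * alpha)) := by
  have h := dens_S (S := {1, 2}) (by decide)
  have e : Pool.Agent.N877.JX.jd {1, 2} = 2461 / 9216 * (eta * alpha) := by
    unfold Pool.Agent.N877.JX.jd
    rw [if_neg (by decide), if_neg (by decide), if_neg (by decide), if_neg (by decide),
      if_neg (by decide), if_pos rfl]
    rfl
  rwa [e] at h

theorem dens012 : HasDensity (All {0, 1, 2}) (8065 / 110592 * (eta * alpha)) := by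
  have h := dens_S (S := {0, 1, 2}) (by decide)
  have e : Pool.Agent.N877.JX.jd {0, 1, 2} = 8065 / 110592 * (eta * alpha) := by
    unfold Pool.Agent.N877.JX.jd
    rw [if_neg (by decide), if_neg (by decide), if_neg (by decide), if_neg (by decide),
      if_neg (by decide), if_neg (by decide)]
    rfl
  rwa [e] at h

end proof

/-- **Main theorem.** For every squarefree `m` the criterion for the twists by `m` of the three curves; the
joint law of the three conditions inside the set of the `m` with root numbers `+1`, in all classes; the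
equivalence for `X_0(15)` and `X_0(21)` in the class `Same`; the natural densities. -/
theorem result :
    (∀ (j : Fin 3) (m : ℤ), Squarefree m →
      Criterion (curve j m) ∧ (TwoPart (curve j m) → Root j m)) ∧
    (∀ S T : Finset (Fin 3), S ⊆ T → 2 ≤ T.card → ∀ (q : ℕ) (A B : Set ℤ), 0 < q →
      HasFrequency (fun m => Roots T m ∧ Class q A B m) (All S) (freq S)) ∧
    (∀ m : ℤ, Squarefree m → Same m → (TwoPart (curve 0 m) ↔ TwoPart (curve 2 m))) ∧
    HasDensity (All {0, 1}) (433 / 1728 * (eta * alpha)) ∧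
    HasDensity (All {0, 2}) (443 / 3072 * eta) ∧
    HasDensity (All {1, 2}) (2461 / 9216 * (eta * alpha)) ∧
    HasDensity (All {0, 1, 2}) (8065 / 110592 * (eta * alpha)) ∧
    HasDensity (fun m => ∃ j, TwoPart (curve j m))
      (2737 / 3072 * eta + alpha / 2 - 16393 / 36864 * (eta * alpha)) ∧
    0.413 < 2737 / 3072 * eta + alpha / 2 - 16393 / 36864 * (eta * alpha) ∧
    2737 / 3072 * eta + alpha / 2 - 16393 / 36864 * (eta * alpha) < 0.4133 ∧
    0.2887 < eta ∧ eta < 0.2889 ∧ 0.4194 < alpha ∧ alpha < 0.4195 :=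
  ⟨fun j m hs => ⟨crit j hs, root_of j hs⟩, fun _ _ h _ _ A B hq => joint h hq A B,
    fun _ hs h => same_iff hs h, dens01, dens02, dens12, dens012, dens_or, value.1, value.2, bounds⟩

end Pool.Agent.Results.MP_92892c_nt.JointTwoPartThreeCurves
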