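import Pool.Agent.N19.BR.Quot
import Pool.Agent.N19.BR.AMain

/-!
# The Birch and Swinnerton-Dyer leading-term formula modulo rational numbers: an unconditional relation
between the formula over `K` (for example `K = ℚ`) and the formula over special number fields

`K` is a number field, `L` a finite Galois extension of `K` and `S` a finite set of primes of `K`.

The proof.  There is a relation `∑ e_j [F_j] = [K]`, with coefficient `1` on the right, between the
permutation characters of finite extensions `F_j` of `K` with the properties below
(`Pool.Agent.N19.BR.Rel`, ..., `Main`, `AMain`).  For an elliptic curve `E` over `K` it gives: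
* `L(E / K, s) = R(s) ∏ L(E / F_j, s) ^ e_j` with `R` from finitely many Euler factors, so `R(1)` is a nonzero
  rational number (`Lead`, `QuotL`); so the orders at `1` and the leading coefficients are related;
* `Ω_K = ∏ Ω_{F_j} ^ e_j` for the products of the real and complex periods of one differential over `K`
  (`Per`: the permutation characters at the complex conjugations count real and complex embeddings);
* `|Δ_K| = ∏ |Δ_{F_j}| ^ e_j` for the discriminants (`Disc`: Hilbert's formula for the different);
* `rk E(K) = ∑ e_j rk E(F_j)` and `Reg_K = q ∏ Reg_{F_j} ^ e_j`, `q ∈ ℚ^×`, for the Gram determinants of any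
  Galois invariant pairing (`Det`, `Reg`, `Reg2`, `Pts2`, `Quot`).  For this let `V = E(M) ⊗ ℚ`, `M` a Galois
  extension that contains the `F_j`, and `G = Gal(M / K)`.  For every endomorphism `T` of `V ⊗ ℝ` that commutes
  with `G` one has `det(T | V^G) = ∏ det(T | V^{H_j}) ^ e_j`, since the logarithmic derivatives of
  `det(1 + x (T - 1) | V^H)` are traces of endomorphisms that commute with `G`; and the pairing is
  `T` followed by a rational isomorphism.

The definitions are in `Pool.Agent.N19.BR.QDefs`, `ADefs`, `TDefs` and `Defs`.
-/

set_option autoImplicit false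

namespace Pool.Agent.Results.MP_92892c_nt.LeadingTermDescent

open NumberField IsDedekindDomain
open Pool.Agent.N19.BR.TDef (FieldList)
open Pool.Agent.N19.BR.MDef (HyperelementaryList)
open Pool.Agent.N19.BR.QDef
open scoped Classical

/-- **The leading-term formula modulo rational numbers.**  Let `L/K` be a finite Galois extension of number
fields, for example `K = ℚ`, `S` a finite set of primes of `K` and `k ≥ 1`.  There is a finite list of number
fields `F_j ⊇ K` with integers `e_j`, such that for every `j` there is a prime number `p` for which the Galois
group of `L F_j / F_j` is `p`-hyperelementary, the divisors of `k` prime to `p` divide the local degrees of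
`F_j / K` at the primes above `S`, and `F_j` has at most two real places if `p ≠ 2`, and such that the following
holds for ALL elliptic curves `E` over `K`, all Galois invariant pairings `B` on `E(K̄)` (the Néron-Tate
pairing) and all connected `U` that contain `1` and the half-plane of absolute convergence, for example
`U = ℂ`: if over all `F_j` the function `L(E / F_j, s)` continues to `U`, its order at `1` is the rank of
`E(F_j)` and its leading coefficient is `κ_j Ω Reg / √|Δ|`, then over `K` the same is true with
`κ = q ∏ κ_j ^ e_j` for a nonzero rational number `q`.  In particular if all `κ_j` are rational, as the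
conjecture says, then `κ` is rational. -/
theorem result (K : Type) [Field K] [NumberField K] (L : Type) [Field L] [NumberField L]
    [Algebra K L] [IsGalois K L] (S : Set (HeightOneSpectrum (𝓞 K))) (hS : S.Finite) (k : ℕ)
    (hk : k ≠ 0) :
    ∃ Y : FieldList K, HyperelementaryList L S k Y ∧
      ∀ E : WeierstrassCurve K, E.IsElliptic →
      ∀ B : Points E (AlgebraicClosure K) →+ Points E (AlgebraicClosure K) →+ ℝ, Invariant E B →
      ∀ U : Set ℂ, IsPreconnected U → (∀ s : ℂ, 3 / 2 < s.re → s ∈ U) → (1 : ℂ) ∈ U →
      ∀ κ : Fin Y.r → ℝ, (∀ j, LeadingFormula E B U (Y.F j) (Y.F j).val (κ j)) →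
        ∃ q : ℚ, q ≠ 0 ∧ LeadingFormula E B U K (Algebra.ofId K (AlgebraicClosure K))
          (q * ∏ j, κ j ^ Y.e j) := by
  obtain ⟨Y, hY, hrel⟩ := Pool.Agent.N19.BR.hyper_list K L S hS k hk
  refine ⟨Y, hY, fun E hE B hB U hU hH h1 κ hκ => ?_⟩
  exact Pool.Agent.N19.BR.leading_rel (Z := fun j => (⟨Y.F j⟩ : Pool.Agent.R433.MD.Ext K)) (e := Y.e)
    (κ := κ) hE hB hU hH h1 (fun j => (Y.F j).val) hrel hκ

end Pool.Agent.Results.MP_92892c_nt.LeadingTermDescent
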