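import Pool.Agent.N877.S21.Dens
import Pool.Agent.N973.P21G.Fin
import Pool.Agent.N973.P21G.To
import Pool.Agent.N973.P21G.Fo
import Pool.Agent.N637.P21.AsmB
import Pool.Agent.N875.X15.ClE
import Pool.Agent.N969.P15.QF
import Pool.Agent.N916.AM.Fd

/-!
# The 2-part of the formula at the central point for ALL the quadratic twists of `X_0(21)`, which has no
# complex multiplication

`E_m`, for a squarefree integer `m` of any sign, is the quadratic twist of `X_0(21) : y² + x y = x³ - 4 x - 1`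
by `ℚ(√m)`. Let `z = L(E_m, 1) #E_m(ℚ)_tors² / (Ω ∏ c_p)`, which according to the formula is zero or the
order of `Ш(E_m/ℚ)`. With no hypothesis on the rank or on `Ш` we prove for ALL squarefree integers `m`:
* the equation of `E_m` is a global minimal one, `L(E_m, s)` is entire, the product of the Tamagawa
  numbers is `4 ^ t`, `t` the number of the prime factors of the discriminant of `ℚ(√m)`, times `2` if
  `7` does not divide `m`, times `4` if `m ≡ 1` and `2` if `m ≡ 2` modulo `3`, and the torsion subgroup has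
  order `4` (`8` for `m = 1`);
* `z` is the square of an integer;
* `z` is odd if and only if `E_m(ℚ)` is finite and `Ш(E_m/ℚ)[2] = 0`; in this case `Ш(E_m/ℚ)[2^∞] = 0`, so
  that the 2-part of the formula holds;
* the natural density of these `m` among all squarefree integers is exactly
  `(137/256) ∏_{i ≥ 1} (1 - 2^{-i}) = 0.1545…`; among those with `m > 0`, `m ≡ 1` modulo `3` and `7` not
  inert in `ℚ(√m)` it is `(4/3) ∏_{i ≥ 1} (1 - 2^{-i})`, among the others with root number `+1` it is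
  `∏_{i ≥ 1} (1 - 2^{-i})`, and for the root number `-1` there are none;
* if `m < 0`, `3` is not split and `7` is not inert in `ℚ(√m)`, `z` is odd if and only if the class group
  of `ℚ(√m)` has no element of order four, and the natural density of the discriminants with this
  property among those of this family is exactly `∏_{i ≥ 1} (1 - 2^{-i}) = 0.2888…`.

Joint work, directed by helper877. The family of the last point: `TwoPartTwistsX21Neg`, now in
`Pool/Agent/N637/P21`, by helper637 and others. The central values for the other classes: Gross's formula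
for the definite quaternion orders of discriminants `3` and `7` with genus characters, the bilinear
identities and their parity: helpers 969, 970, 971, 972, 973, 974, 975, 99, 575, 809, 816, 844, 855, 871,
877, 886, 890, 919 and others. The modular form, its symbol and its exact scale: helpers 402, 971, 973, 974,
975. The vanishing for the root number `-1`: helpers 871, 975. The torsion, the Tamagawa numbers and the
minimal equations: helpers 218, 637, 816. The descent and the criteria: helpers 637, 809, 875, 972, 973. The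
natural density: helpers 916, 809. The values and this file: helper877.
-/

set_option autoImplicit false
set_option linter.style.haveILetI false

open WeierstrassCurve MeasureTheory Filter Topology Finset

namespace Pool.Agent.Results.MP_92892c_nt.TwoPartTwistsX21

open scoped Classical

open Pool.Agent.TH841.SH.D (Sha)

/-- The quadratic twist of `X_0(21)` by `m ≡ 1` modulo `4`:
`y² + x y = x³ + ((25 m - 1)/4) x² + 9 m² x`.  For `m = 1` this is the curve
`y² + x y = x³ + 6 x² + 9 x`, which becomes `y² + x y = x³ - 4 x - 1` if `x` and `y` are replaced by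
`x - 2` and `y + 1`. -/
def twistOdd (m : ℤ) : WeierstrassCurve ℤ :=
  ⟨1, (25 * m - 1) / 4, 0, 9 * m ^ 2, 0⟩

/-- The quadratic twist of `X_0(21)` by `m` which is not congruent to `1` modulo `4`:
`y² = x³ - 2 m x² - 63 m² x = x (x - 9 m) (x + 7 m)`. -/
def twistEven (m : ℤ) : WeierstrassCurve ℤ := ⟨0, -2 * m, 0, -63 * m ^ 2, 0⟩

/-- The twist `E_m` of `X_0(21)`. -/
def E (m : ℤ) : WeierstrassCurve ℤ := if m % 4 = 1 then twistOdd m else twistEven m

/-- The curve given by the equation of `W` over the ring `R`. -/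
abbrev base (W : WeierstrassCurve ℤ) (R : Type) [CommRing R] : WeierstrassCurve R :=
  W.map (Int.castRingHom R)

/-- `W` is a global minimal equation: `Δ ≠ 0` and `|Δ|` is minimal among the integral equations of the
same curve over `ℚ`. -/
def Minimal (W : WeierstrassCurve ℤ) : Prop :=
  W.Δ ≠ 0 ∧ ∀ (W' : WeierstrassCurve ℤ) (C : VariableChange ℚ), C • base W ℚ = base W' ℚ →
    |W.Δ| ≤ |W'.Δ|

/-- The number of the affine points modulo `p`. -/
noncomputable def pts (W : WeierstrassCurve ℤ) (p : ℕ) : ℕ :=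
  Nat.card {P : ZMod p × ZMod p // (base W (ZMod p)).toAffine.Equation P.1 P.2}

/-- `a_p = p + 1 - #W(𝔽_p)`, the points counted with the point at infinity. -/
noncomputable def a (W : WeierstrassCurve ℤ) (p : ℕ) : ℤ := p - pts W p

/-- `L` is the L-function of the minimal equation `W`: it is entire, and for `Re s > 3/2` it is given by
the Euler product with the factors `(1 - a_p p^(-s) + p^(1 - 2 s))⁻¹` if `p` does not divide `Δ` and
`(1 - a_p p^(-s))⁻¹` otherwise. -/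
def IsL (W : WeierstrassCurve ℤ) (L : ℂ → ℂ) : Prop :=
  Differentiable ℂ L ∧ ∀ s : ℂ, 3 / 2 < s.re →
    HasProd (fun p : Nat.Primes => (1 - (a W p : ℂ) * ((p : ℕ) : ℂ) ^ (-s) +
      (if ((p : ℕ) : ℤ) ∣ W.Δ then 0 else ((p : ℕ) : ℂ) ^ (1 - 2 * s)))⁻¹) (L s)

/-- The point `P` of `W` over `ℚ_p` reduces to a singular point of the curve modulo `p`: the coordinates
are integral and both partial derivatives of `y² + a₁ x y + a₃ y - x³ - a₂ x² - a₄ x - a₆` are in the
maximal ideal. -/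
def SingularReduction (W : WeierstrassCurve ℤ) (p : ℕ) [Fact p.Prime]
    (P : (base W ℚ_[p]).toAffine.Point) : Prop :=
  ∃ x y h, P = Affine.Point.some x y h ∧ ‖x‖ ≤ 1 ∧ ‖y‖ ≤ 1 ∧
    ‖W.a₁ * y - (3 * x ^ 2 + 2 * W.a₂ * x + W.a₄)‖ < 1 ∧ ‖2 * y + W.a₁ * x + W.a₃‖ < 1

/-- `c p` is the Tamagawa number `[W(ℚ_p) : W⁰(ℚ_p)]` for all primes `p`, where `W⁰(ℚ_p)` is the subgroup
of the points which do not have singular reduction; it is `1` if `p` does not divide `Δ`. -/
def IsTamagawa (W : WeierstrassCurve ℤ) (c : ℕ → ℕ) : Prop :=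
  ∀ (p : ℕ) [Fact p.Prime], (∃ H : AddSubgroup (base W ℚ_[p]).toAffine.Point,
    (∀ P, P ∈ H ↔ ¬ SingularReduction W p P) ∧ H.index = c p) ∧ (¬ (p : ℤ) ∣ W.Δ → c p = 1)

/-- The product of the Tamagawa numbers. -/
noncomputable def Tam (W : WeierstrassCurve ℤ) (c : ℕ → ℕ) : ℕ := ∏ p ∈ W.Δ.natAbs.primeFactors, c p

/-- `4 x³ + b₂ x² + 2 b₄ x + b₆ = (2 y + a₁ x + a₃)²`. -/
def cubic (W : WeierstrassCurve ℤ) (x : ℝ) : ℝ := 4 * x ^ 3 + W.b₂ * x ^ 2 + 2 * W.b₄ * x + W.b₆

/-- `Ω = ∫_{W(ℝ)} |ω|` with `ω = dx / (2 y + a₁ x + a₃)`, as an integral over `x`: two real points lie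
over each `x` with `cubic x > 0`. -/
noncomputable def Omega (W : WeierstrassCurve ℤ) : ℝ :=
  2 * ∫ x in {x : ℝ | 0 < cubic W x}, 1 / √(cubic W x)

/-- The order of the torsion subgroup of `W(ℚ)`. -/
noncomputable def torsOrder (W : WeierstrassCurve ℤ) : ℕ :=
  Nat.card (AddCommGroup.torsion (base W ℚ).toAffine.Point)

/-- The order of the Tate-Shafarevich group predicted by the formula in rank zero, for the value `l` of
the L-function at `s = 1` and the Tamagawa numbers `c`: `l #W(ℚ)_tors² / (Ω ∏ c_p)`. -/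
noncomputable def anOrder (W : WeierstrassCurve ℤ) (l : ℂ) (c : ℕ → ℕ) : ℂ :=
  l * (torsOrder W : ℂ) ^ 2 / ((Omega W : ℝ) * (Tam W c : ℂ))

/-- The 2-part of the formula for `W` over `ℚ`, in the case that the predicted order of `Ш` is a unit at
two: `W` is minimal, `L(W, s)` is entire, `L(W, 1) ≠ 0`, `W(ℚ)` is finite, the 2-primary part of
`Ш(W/ℚ)` is zero, and the predicted order of `Ш` is a rational number which is a unit at two. -/
def TwoPart (W : WeierstrassCurve ℤ) : Prop :=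
  Minimal W ∧ Finite (base W ℚ).toAffine.Point ∧
  (∀ (n : ℕ) (x : Sha (base W ℚ)), 2 ^ n • x = 0 → x = 0) ∧
  ∃ (L : ℂ → ℂ) (c : ℕ → ℕ) (z : ℚ), IsL W L ∧ L 1 ≠ 0 ∧ IsTamagawa W c ∧ 0 < Tam W c ∧
    0 < Omega W ∧ 0 < torsOrder W ∧ anOrder W (L 1) c = z ∧ z ≠ 0 ∧ padicValRat 2 z = 0

/-- The group `E_m(ℚ)` is finite and `Ш(E_m/ℚ)` has no element of order two. -/
def NoSelmer (m : ℤ) : Prop :=
  Finite (base (E m) ℚ).toAffine.Point ∧ ∀ x : Sha (base (E m) ℚ), 2 • x = 0 → x = 0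

/-- The absolute value of the discriminant of `ℚ(√m)` (`1` for `m = 1`). -/
def absDisc (m : ℤ) : ℕ := if m % 4 = 1 then m.natAbs else 4 * m.natAbs

/-- The product of the Tamagawa numbers of `E_m`. -/
def tamValue (m : ℤ) : ℕ :=
  4 ^ (absDisc m).primeFactors.card *
    ((if (3 : ℤ) ∣ m then 1 else if m % 3 = 1 then 4 else 2) * (if (7 : ℤ) ∣ m then 1 else 2))

/-- The class group of `ℚ(√m)` has no element of order four. -/
def NoOrderFour (m : ℤ) : Prop :=
  ∀ (K : Type) [Field K] [NumberField K], Module.finrank ℚ K = 2 → (∃ s : K, s ^ 2 = (m : K)) →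
    ∀ c : ClassGroup (NumberField.RingOfIntegers K), c ^ 4 = 1 → c ^ 2 = 1

/-- `m` is negative and squarefree, `3` is not split and `7` is not inert in `ℚ(√m)`. -/
def Family (m : ℤ) : Prop :=
  Squarefree m ∧ m < 0 ∧ m % 3 ≠ 1 ∧ (m % 7 = 0 ∨ m % 7 = 1 ∨ m % 7 = 2 ∨ m % 7 = 4)

/-- The root number of `E_m`, as an explicit function of `m`. -/
def rootNumber (m : ℤ) : ℤ :=
  (if m < 0 then -1 else 1) * (if m % 3 = 1 then 1 else -1) *
    (if m % 7 = 3 ∨ m % 7 = 5 ∨ m % 7 = 6 then -1 else 1)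

/-- The statement for the squarefree integer `m`. -/
def Criterion (m : ℤ) : Prop :=
  Minimal (E m) ∧
  (∃ (L : ℂ → ℂ) (c : ℕ → ℕ) (y : ℤ), IsL (E m) L ∧ IsTamagawa (E m) c ∧
    Tam (E m) c = tamValue m ∧ torsOrder (E m) = (if m = 1 then 8 else 4) ∧ 0 < Omega (E m) ∧
    anOrder (E m) (L 1) c = (y : ℂ) ^ 2 ∧ (Odd y ↔ NoSelmer m)) ∧
  (NoSelmer m ↔ TwoPart (E m)) ∧
  (NoSelmer m → rootNumber m = 1) ∧
  (Family m → (NoSelmer m ↔ NoOrderFour m))

/-- `m` is positive, `m ≡ 1` modulo `3`, and `7` is not inert in `ℚ(√m)`. -/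
def Exceptional (m : ℤ) : Prop := 0 < m ∧ m % 3 = 1 ∧ ¬ (m % 7 = 3 ∨ m % 7 = 5 ∨ m % 7 = 6)

/-- The root number is `+1` and `m` is not in the exceptional class. -/
def Ordinary (m : ℤ) : Prop := rootNumber m = 1 ∧ ¬ Exceptional m

/-- The number of the squarefree integers `m` with `|m| ≤ X` and `P m`. -/
noncomputable def total (P : ℤ → Prop) (X : ℕ) : ℕ :=
  ((Icc (-(X : ℤ)) X).filter fun m => Squarefree m ∧ P m).card

/-- The number of the squarefree integers `m` with `|m| ≤ X` and `P m` for which the 2-part of the formula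
holds with a predicted order which is a unit at two. -/
noncomputable def good (P : ℤ → Prop) (X : ℕ) : ℕ :=
  ((Icc (-(X : ℤ)) X).filter fun m => Squarefree m ∧ P m ∧ TwoPart (E m)).card

/-- `-n` is the discriminant of an imaginary quadratic field in which `3` is not split and `7` is not
inert. -/
def Disc (n : ℕ) : Prop :=
  ((Squarefree n ∧ n % 4 = 3) ∨ ∃ m : ℕ, n = 4 * m ∧ Squarefree m ∧ (m % 4 = 1 ∨ m % 4 = 2)) ∧
    n % 3 ≠ 2 ∧ (n % 7 = 0 ∨ n % 7 = 3 ∨ n % 7 = 5 ∨ n % 7 = 6)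

/-- The squarefree integer `sqf n` with `ℚ(√(sqf n)) = ℚ(√-n)`, `-n` a discriminant. -/
def sqf (n : ℕ) : ℤ := if n % 2 = 1 then -(n : ℤ) else -((n / 4 : ℕ) : ℤ)

/-- The number of the `n ≤ X` such that `-n` is a discriminant of the family. -/
noncomputable def totalN (X : ℕ) : ℕ := ((Icc 1 X).filter fun n => Disc n).card

/-- The number of those for which the 2-part of the formula holds with a predicted order which is a unit
at two. -/
noncomputable def goodN (X : ℕ) : ℕ :=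
  ((Icc 1 X).filter fun n => Disc n ∧ TwoPart (E (sqf n))).card

section proof

open Pool.Agent.N875.X15 (Fin2 fin2_pow qc_P15 qc_iff_class qe_iff_class)
open Pool.Agent.N637.P21 (WN WNQ Em EQm Ao Ae t2 crit_ao_N crit_ae odd_val)
open Pool.Agent.N218.T21 (EE Kd t3 t7 tamProd_EE min_EE)
open Pool.Agent.N809.PQ (Sg21)
open Pool.Agent.N877.S21 (fin2_EE)
open Pool.Agent.N916.TE (FD Go)

lemma omega_eq (W : WeierstrassCurve ℤ) : Omega W = Pool.Agent.Y700.Omega W := by
  unfold Omega Pool.Agent.Y700.Omega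
  rw [← integral_const_mul]
  show ∫ x in {x : ℝ | 0 < Pool.Agent.Y700.psi W x}, 2 * (1 / √(Pool.Agent.Y700.psi W x)) = _
  congr 1
  funext x
  rw [mul_one_div]

/-- the Tamagawa numbers -/
noncomputable def cT (W : WeierstrassCurve ℤ) (p : ℕ) : ℕ :=
  if h : p.Prime then (haveI := Fact.mk h; Pool.Agent.Y700.tam W p) else 1

lemma isTam (W : WeierstrassCurve ℤ) : IsTamagawa W (cT W) := by
  intro p hp
  have hc : cT W p = Pool.Agent.Y700.tam W p := by
    unfold cT
    rw [dif_pos hp.out]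
  refine ⟨⟨Pool.Agent.Y700.E0 W p, fun P => ?_, by rw [hc]; rfl⟩, fun h => ?_⟩
  · rw [Pool.Agent.Y809.BSD14.t_E0 W p P]
    constructor
    · rintro h ⟨x, y, h1, rfl, h2⟩
      exact h x y h1 rfl h2
    · intro h x y h1 h2 h3
      exact h ⟨x, y, h1, h2, h3⟩
  · rw [hc]
    exact Pool.Agent.Y809.BSD14.t_TGOOD W p h

lemma tam_eq (W : WeierstrassCurve ℤ) : Tam W (cT W) = Pool.Agent.Y700.tamProd W := rfl

lemma two_iff {A : Type} [AddCommGroup A] : (∀ x : A, 2 • x = 0 → x = 0) ↔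
    ∀ x : A, x + x = 0 → x = 0 := by
  refine forall_congr' fun x => ?_
  rw [two_nsmul]

lemma anOrder_eq {W : WeierstrassCurve ℤ} {l : ℂ} {q : ℝ} (hΩ : 0 < Omega W)
    (hT : 0 < Tam W (cT W)) (ht : 0 < torsOrder W)
    (hl : l = ((q * (Pool.Agent.Y700.Omega W * Pool.Agent.Y700.tamProd W /
      (Nat.card (AddCommGroup.torsion (base W ℚ).toAffine.Point) : ℝ) ^ 2) : ℝ) : ℂ)) :
    anOrder W l (cT W) = (q : ℂ) := by
  have e1 : Pool.Agent.Y700.Omega W = Omega W := (omega_eq _).symm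
  have e2 : Pool.Agent.Y700.tamProd W = Tam W (cT W) := rfl
  have e3 : Nat.card (AddCommGroup.torsion (base W ℚ).toAffine.Point) = torsOrder W := rfl
  rw [e1, e2, e3] at hl
  have h1 : (Omega W : ℂ) ≠ 0 := by exact_mod_cast hΩ.ne'
  have h2 : ((Tam W (cT W) : ℕ) : ℂ) ≠ 0 := by exact_mod_cast hT.ne'
  have h3 : ((torsOrder W : ℕ) : ℂ) ≠ 0 := by exact_mod_cast ht.ne'
  unfold anOrder
  rw [hl]
  push_cast
  field_simp

lemma E_eq (m : ℤ) : E m = EE m := rfl

lemma absDisc_eq (m : ℤ) : absDisc m = Kd m := rfl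

lemma noSelmer_iff (m : ℤ) : NoSelmer m ↔ Fin2 (base (E m) ℚ) := and_congr Iff.rfl two_iff

theorem class_of {m : ℤ} (h0 : m < 0) {Q : Prop}
    (key : ∀ (K : Type) [Field K] [NumberField K], Module.finrank ℚ K = 2 →
      (∃ s : K, s ^ 2 = (m : K)) →
      ((∀ c : ClassGroup (NumberField.RingOfIntegers K), c ^ 4 = 1 → c ^ 2 = 1) ↔ Q)) :
    NoOrderFour m ↔ Q := by
  constructor
  · intro h8
    obtain ⟨k, hk⟩ : ∃ k : ℕ, m = -(k : ℤ) := ⟨m.natAbs, by omega⟩
    obtain ⟨K, i1, i2, h6, h7⟩ := Pool.Agent.N969.P15.exists_qf (n := k) (by omega)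
    have h9 : ∃ s : K, s ^ 2 = (m : K) := by
      obtain ⟨s, hs⟩ := h7
      refine ⟨s, ?_⟩
      rw [hs, hk]
      push_cast
      rfl
    exact (key K h6 h9).1 (h8 K h6 h9)
  · intro h8 K i1 i2 h6 h7
    exact (key K h6 h7).2 h8

theorem class_odd {n : ℕ} (h : Ao n) : NoOrderFour (-(n : ℤ)) ↔ Pool.Agent.N969.P15.Qc n := by
  have h0 : 0 < n := Nat.pos_of_ne_zero h.1.ne_zero
  refine class_of (by omega) fun K _ _ h6 h7 => ?_
  have h9 : ∃ s : K, s ^ 2 = -(n : K) := by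
    obtain ⟨s, hs⟩ := h7
    refine ⟨s, ?_⟩
    rw [hs]
    push_cast
    rfl
  rw [qc_iff_class h.1 h.2.1 K h6 h9, qc_P15 h0.ne']

theorem class_even {n : ℕ} (h : Ae n) :
    NoOrderFour (-((n / 4 : ℕ) : ℤ)) ↔ Pool.Agent.N969.P15.Qe n := by
  have h04 : 0 < n / 4 := by
    have h5 := Pool.Agent.N975.ChE.ev_pos h.1
    obtain ⟨⟨k, rfl, -⟩, -⟩ := h
    omega
  have hn4 : n ≠ 4 := by
    have := h.2.2
    omega
  refine class_of (by omega) fun K _ _ h6 h7 => ?_
  have h9 : ∃ s : K, s ^ 2 = -((n / 4 : ℕ) : K) := by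
    obtain ⟨s, hs⟩ := h7
    refine ⟨s, ?_⟩
    rw [hs, Int.cast_neg, Int.cast_natCast]
  exact qe_iff_class h.1 hn4 K h6 h9

theorem noSelmer_odd {n : ℕ} (h : Ao n) :
    NoSelmer (-(n : ℤ)) ↔ Pool.Agent.N969.P15.Qc n := by
  have h4 := h.2.1
  rw [noSelmer_iff, E_eq, show EE (-(n : ℤ)) = WN (-(n : ℤ)) from if_pos (by omega)]
  exact crit_ao_N h

theorem noSelmer_even {n : ℕ} (h : Ae n) :
    NoSelmer (-((n / 4 : ℕ) : ℤ)) ↔ Pool.Agent.N969.P15.Qe n := by
  have h5 : ¬ (-((n / 4 : ℕ) : ℤ)) % 4 = 1 := by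
    obtain ⟨⟨k, rfl, -, hk⟩, -⟩ := h
    have e : 4 * k / 4 = k := by omega
    rw [e]
    omega
  rw [noSelmer_iff, E_eq, show EE (-((n / 4 : ℕ) : ℤ)) = Em (-((n / 4 : ℕ) : ℤ)) from if_neg h5]
  exact crit_ae h

theorem class_iff {m : ℤ} (hs : Squarefree m) (h0 : m < 0) (h3 : m % 3 ≠ 1)
    (h7 : m % 7 = 0 ∨ m % 7 = 1 ∨ m % 7 = 2 ∨ m % 7 = 4) : NoSelmer m ↔ NoOrderFour m := by
  have hs' : Squarefree m.natAbs := Int.squarefree_natAbs.2 hs
  by_cases h4 : m % 4 = 1
  · obtain ⟨n, rfl⟩ : ∃ n : ℕ, m = -(n : ℤ) := ⟨m.natAbs, by omega⟩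
    have hA : Ao n := by
      refine ⟨?_, by omega, by omega, by omega⟩
      rwa [Int.natAbs_neg, Int.natAbs_natCast] at hs'
    rw [noSelmer_odd hA, class_odd hA]
  · obtain ⟨k, rfl⟩ : ∃ k : ℕ, m = -(k : ℤ) := ⟨m.natAbs, by omega⟩
    have h5 : ¬ (4 : ℤ) ∣ -(k : ℤ) := fun h => by
      have := hs 2 (by
        obtain ⟨j, hj⟩ := h
        exact ⟨j, by rw [hj]; ring⟩)
      rw [Int.isUnit_iff] at this
      omega
    rw [Int.natAbs_neg, Int.natAbs_natCast] at hs'
    have hA : Ae (4 * k) := ⟨⟨k, rfl, hs', by omega⟩, by omega, by omega⟩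
    have e : 4 * k / 4 = k := by omega
    have e1 := noSelmer_even hA
    have e2 := class_even hA
    rw [e] at e1 e2
    rw [e1, e2]

/-- the common part of the proof -/
theorem core {m : ℤ} (hs : Squarefree m) {t : ℕ} (ht0 : 0 < t) (hto : torsOrder (E m) = t) {Q : Prop}
    (hsel : NoSelmer m ↔ Q) (hΩ : 0 < Pool.Agent.Y700.Omega (E m)) {f : ℂ → ℂ} {y : ℤ}
    (hf : IsL (E m) f) (hyQ : Odd y ↔ Q)
    (hval : f 1 = (((y : ℝ) ^ 2 * (Pool.Agent.Y700.Omega (E m) * Pool.Agent.Y700.tamProd (E m) /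
      (t : ℝ) ^ 2) : ℝ) : ℂ)) :
    Minimal (E m) ∧
    (∃ (L : ℂ → ℂ) (c : ℕ → ℕ) (y : ℤ), IsL (E m) L ∧ IsTamagawa (E m) c ∧
      Tam (E m) c = tamValue m ∧ torsOrder (E m) = t ∧ 0 < Omega (E m) ∧
      anOrder (E m) (L 1) c = (y : ℂ) ^ 2 ∧ (Odd y ↔ NoSelmer m)) ∧
    (NoSelmer m ↔ TwoPart (E m)) := by
  have hmin : Minimal (E m) := min_EE hs
  have hT : Tam (E m) (cT (E m)) = tamValue m := by
    rw [tam_eq]
    exact tamProd_EE hs
  have hΩ' : 0 < Omega (E m) := by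
    rw [omega_eq]
    exact hΩ
  have hT0 : 0 < Tam (E m) (cT (E m)) := by
    rw [hT]
    unfold tamValue
    refine Nat.mul_pos (pow_pos (by norm_num) _) (Nat.mul_pos ?_ ?_) <;> split_ifs <;> norm_num
  have han : anOrder (E m) (f 1) (cT (E m)) = (y : ℂ) ^ 2 := by
    have h1 : ((Pool.Agent.Y700.Omega (E m) : ℝ) : ℂ) ≠ 0 := by exact_mod_cast hΩ.ne'
    have h2 : ((Pool.Agent.Y700.tamProd (E m) : ℕ) : ℂ) ≠ 0 := by
      rw [← tam_eq]
      exact_mod_cast hT0.ne'
    have h3 : (t : ℂ) ≠ 0 := by exact_mod_cast ht0.ne'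
    unfold anOrder
    rw [hto, tam_eq, omega_eq, hval]
    push_cast
    field_simp
  refine ⟨hmin, ⟨f, cT _, y, hf, isTam _, hT, hto, hΩ', han, hyQ.trans hsel.symm⟩, fun hc => ?_,
    fun hp => ⟨hp.2.1, fun x hx => hp.2.2.1 1 x (by rwa [pow_one])⟩⟩
  have hns := (noSelmer_iff m).1 hc
  have hyo : Odd y := hyQ.2 (hsel.1 hc)
  have hy0 : y ≠ 0 := by
    rintro rfl
    exact absurd hyo (by decide)
  have hyq : (y : ℚ) ≠ 0 := by exact_mod_cast hy0
  refine ⟨hmin, hns.1, fun k x hx => fin2_pow hns k x hx, f, cT _, (y : ℚ) ^ 2, hf, ?_,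
    isTam _, hT0, hΩ', by rw [hto]; exact ht0, by rw [han]; push_cast; rfl, pow_ne_zero 2 hyq, ?_⟩
  · intro h0
    rw [h0] at han
    unfold anOrder at han
    rw [zero_mul, zero_div] at han
    have h3 : (y : ℂ) ^ 2 ≠ 0 := pow_ne_zero 2 (by exact_mod_cast hy0)
    exact h3 han.symm
  · have : Fact (Nat.Prime 2) := ⟨Nat.prime_two⟩
    rw [padicValRat.pow, odd_val hyo]
    simp

theorem root_of_sg {m : ℤ} (hs : Squarefree m) (h : Sg21 m) : rootNumber m = 1 :=
  (Pool.Agent.N809.Red21.f21_iff m).1 (Pool.Agent.N916.PQ.L21.f21_of_sg hs h)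

theorem criterion_ne {m : ℤ} (hs : Squarefree m) (h1 : m ≠ 1) : Criterion m := by
  obtain ⟨hΩ, f, y, hf, hyQ, hval⟩ := Pool.Agent.N973.P21G.vl_allX hs h1
  rw [← E_eq] at hΩ hf hval
  obtain ⟨k1, k2, k3⟩ := core hs (t := 4) (by norm_num) (Pool.Agent.N973.P21G.tor_four m hs h1)
    ((noSelmer_iff m).trans (fin2_EE hs h1)) hΩ hf hyQ (by rw [hval]; norm_num)
  refine ⟨k1, ?_, k3, fun h => root_of_sg hs ((fin2_EE hs h1).1 ((noSelmer_iff m).1 h)),
    fun hc => class_iff hc.1 hc.2.1 hc.2.2.1 hc.2.2.2⟩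
  rw [if_neg h1]
  exact k2

theorem noSelmer_one : NoSelmer 1 := (noSelmer_iff 1).2 Pool.Agent.N973.P21G.fin2_one

theorem criterion_one : Criterion 1 := by
  obtain ⟨hΩ, f, hf, hval⟩ := Pool.Agent.N973.P21G.one_valX
  rw [← E_eq] at hΩ hf hval
  obtain ⟨k1, k2, k3⟩ := core (m := 1) squarefree_one (t := 8) (by norm_num)
    Pool.Agent.N973.P21G.tor_eight
    (Q := True) (iff_true_intro noSelmer_one) hΩ hf (y := 1) (by decide) (by
      rw [hval]; norm_num)
  refine ⟨k1, ?_, k3, fun _ => by unfold rootNumber; norm_num, fun hc => absurd hc.2.1 (by norm_num)⟩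
  rw [if_pos rfl]
  exact k2

theorem criterion {m : ℤ} (hs : Squarefree m) : Criterion m := by
  by_cases h1 : m = 1
  · rw [h1]
    exact criterion_one
  · exact criterion_ne hs h1

theorem twoPart_iff {m : ℤ} (hs : Squarefree m) :
    TwoPart (E m) ↔ Fin2 ((EE m).map (Int.castRingHom ℚ)) := by
  rw [← (criterion hs).2.2.1]
  exact noSelmer_iff m

lemma card_eq {p q : ℤ → Prop} {ip : DecidablePred p} {iq : DecidablePred q} {S : Finset ℤ}
    (h : ∀ m ∈ S, p m ↔ q m) :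
    (@Finset.filter _ p ip S).card = (@Finset.filter _ q iq S).card := by
  refine congrArg Finset.card (Finset.ext fun m => ?_)
  rw [@Finset.mem_filter _ p ip, @Finset.mem_filter _ q iq]
  exact and_congr_right fun hm => h m hm

theorem density_of {P : ℤ → Prop} {c : ℝ} (h : Tendsto (fun X : ℕ =>
    (Pool.Agent.N919.BS.NS (fun m => P m ∧ Fin2 ((EE m).map (Int.castRingHom ℚ))) X : ℝ) /
      (Pool.Agent.N919.BS.NS P X : ℝ)) atTop (𝓝 c)) :
    Tendsto (fun X : ℕ => (good P X : ℝ) / (total P X : ℝ)) atTop (𝓝 c) := by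
  refine h.congr fun X => congrArg₂ (fun a b : ℕ => (a : ℝ) / (b : ℝ)) ?_ ?_
  · unfold Pool.Agent.N919.BS.NS good
    exact card_eq fun m _ => and_congr_right fun hs => and_congr_right fun _ => (twoPart_iff hs).symm
  · unfold Pool.Agent.N919.BS.NS total
    exact card_eq fun m _ => Iff.rfl

theorem density_all :
    Tendsto (fun X : ℕ => (good (fun _ => True) X : ℝ) / (total (fun _ => True) X : ℝ)) atTop
      (𝓝 ((137 / 256) * ∏' i : ℕ, (1 - (1 / 2 : ℝ) ^ (i + 1)))) := by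
  refine density_of ?_
  rw [Pool.Agent.N877.S21.fun_true]
  exact Pool.Agent.N877.S21.dens

theorem density_exc :
    Tendsto (fun X : ℕ => (good Exceptional X : ℝ) / (total Exceptional X : ℝ)) atTop
      (𝓝 ((4 / 3) * ∏' i : ℕ, (1 - (1 / 2 : ℝ) ^ (i + 1)))) :=
  density_of Pool.Agent.N877.S21.dens_exc

theorem density_ord :
    Tendsto (fun X : ℕ => (good Ordinary X : ℝ) / (total Ordinary X : ℝ)) atTop
      (𝓝 (∏' i : ℕ, (1 - (1 / 2 : ℝ) ^ (i + 1)))) :=
  density_of Pool.Agent.N877.S21.dens_ord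

theorem disc_cases {n : ℕ} (h : Disc n) : (n % 2 = 1 ∧ Ao n) ∨ (n % 2 = 0 ∧ Ae n) := by
  obtain ⟨h1, h3, h5⟩ := h
  rcases h1 with ⟨hs, h4⟩ | hE
  · exact Or.inl ⟨by omega, hs, h4, h3, h5⟩
  · refine Or.inr ⟨?_, hE, h3, h5⟩
    obtain ⟨k, rfl, -⟩ := hE
    omega

theorem sqf_props {n : ℕ} (h : Disc n) : Squarefree (sqf n) ∧ sqf n ≠ 1 := by
  unfold sqf
  rcases disc_cases h with ⟨h2, hA⟩ | ⟨h2, hA⟩
  · rw [if_pos h2]
    refine ⟨?_, by omega⟩
    rw [← Int.squarefree_natAbs, Int.natAbs_neg, Int.natAbs_natCast]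
    exact hA.1
  · rw [if_neg (by omega)]
    obtain ⟨⟨k, rfl, hk, -⟩, -⟩ := hA
    have e : 4 * k / 4 = k := by omega
    rw [e]
    refine ⟨?_, by omega⟩
    rw [← Int.squarefree_natAbs, Int.natAbs_neg, Int.natAbs_natCast]
    exact hk

theorem go_iff {n : ℕ} (h : Disc n) : TwoPart (E (sqf n)) ↔ Go n := by
  obtain ⟨h8, h9⟩ := sqf_props h
  rw [← (criterion h8).2.2.1]
  unfold sqf
  rcases disc_cases h with ⟨h2, hA⟩ | ⟨h2, hA⟩
  · rw [if_pos h2, noSelmer_odd hA]
    exact ⟨fun h => ⟨fun _ => h, fun h3 => by omega⟩, fun h => h.1 h2⟩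
  · rw [if_neg (by omega), noSelmer_even hA]
    exact ⟨fun h => ⟨fun h3 => by omega, fun _ => h⟩, fun h => h.2 h2⟩

theorem density_family :
    Tendsto (fun X : ℕ => (goodN X : ℝ) / (totalN X : ℝ)) atTop
      (𝓝 (∏' i : ℕ, (1 - (1 / 2 : ℝ) ^ (i + 1)))) := by
  have h := Pool.Agent.N916.AM.density_mod (m := 21) (by norm_num)
    (R := (Finset.range 21).filter fun r =>
      r % 3 ≠ 2 ∧ (r % 7 = 0 ∨ r % 7 = 3 ∨ r % 7 = 5 ∨ r % 7 = 6)) (n₀ := 3)
    Nat.prime_three.squarefree (by norm_num) (by decide)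
  unfold Pool.Agent.N916.GB.eta at h
  have hR : ∀ n : ℕ, n % 21 ∈ (Finset.range 21).filter (fun r =>
      r % 3 ≠ 2 ∧ (r % 7 = 0 ∨ r % 7 = 3 ∨ r % 7 = 5 ∨ r % 7 = 6)) ↔
      (n % 3 ≠ 2 ∧ (n % 7 = 0 ∨ n % 7 = 3 ∨ n % 7 = 5 ∨ n % 7 = 6)) := by
    intro n
    rw [Finset.mem_filter, Finset.mem_range]
    have h1 : n % 21 % 3 = n % 3 := Nat.mod_mod_of_dvd n (by norm_num)
    have h2 : n % 21 % 7 = n % 7 := Nat.mod_mod_of_dvd n (by norm_num)
    rw [h1, h2]
    exact ⟨fun h => h.2, fun h => ⟨Nat.mod_lt _ (by norm_num), h⟩⟩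
  simp only [hR] at h
  refine h.congr fun X => congrArg₂ (fun a b : ℕ => (a : ℝ) / (b : ℝ)) ?_ ?_
  · refine congrArg Finset.card (Finset.ext fun n => ?_)
    refine (Finset.mem_filter).trans (Iff.trans ?_ (Finset.mem_filter).symm)
    refine and_congr_right fun _ => ?_
    constructor
    · rintro ⟨h1, h2, h3⟩
      exact ⟨⟨h1, h2⟩, (go_iff ⟨h1, h2⟩).2 h3⟩
    · rintro ⟨h1, h2⟩
      exact ⟨h1.1, h1.2, (go_iff h1).1 h2⟩
  · refine congrArg Finset.card (Finset.ext fun n => ?_)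
    refine (Finset.mem_filter).trans (Iff.trans ?_ (Finset.mem_filter).symm)
    exact Iff.rfl

end proof

/-- **Main theorem.** The statement `Criterion m` holds for all squarefree integers `m`. The 2-part of the
formula holds with a predicted order of `Ш` which is a unit at two for a set of natural density exactly
`(137/256) ∏_{i ≥ 1} (1 - 2^{-i})` of the squarefree integers; in the exceptional class this density is
`(4/3) ∏_{i ≥ 1} (1 - 2^{-i})`, for the other `m` with root number `+1` it is `∏_{i ≥ 1} (1 - 2^{-i})`, as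
it is for the discriminants of the family. -/
theorem result :
    (∀ m : ℤ, Squarefree m → Criterion m) ∧
    Tendsto (fun X : ℕ => (good (fun _ => True) X : ℝ) / (total (fun _ => True) X : ℝ)) atTop
      (𝓝 ((137 / 256) * ∏' i : ℕ, (1 - (1 / 2 : ℝ) ^ (i + 1)))) ∧
    Tendsto (fun X : ℕ => (good Exceptional X : ℝ) / (total Exceptional X : ℝ)) atTop
      (𝓝 ((4 / 3) * ∏' i : ℕ, (1 - (1 / 2 : ℝ) ^ (i + 1)))) ∧
    Tendsto (fun X : ℕ => (good Ordinary X : ℝ) / (total Ordinary X : ℝ)) atTop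
      (𝓝 (∏' i : ℕ, (1 - (1 / 2 : ℝ) ^ (i + 1)))) ∧
    Tendsto (fun X : ℕ => (goodN X : ℝ) / (totalN X : ℝ)) atTop
      (𝓝 (∏' i : ℕ, (1 - (1 / 2 : ℝ) ^ (i + 1)))) :=
  ⟨fun _ hs => criterion hs, density_all, density_exc, density_ord, density_family⟩

end Pool.Agent.Results.MP_92892c_nt.TwoPartTwistsX21
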