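import Pool.Agent.N877.P24.All
import Pool.Agent.N916.AM.Fd
import Pool.Agent.N875.X15.ClE
import Pool.Agent.N875.X15.Main
import Pool.Agent.N969.P15.QF

/-!
# The 2-part of the leading-term formula for the quadratic twists of the non-CM curve `X_0(24)` by all
# the negative discriminants such that `2` is inert or `8 ∣ D`, and `3` is not inert

Let `D = -N` be a negative fundamental discriminant such that `2` is inert in `ℚ(√D)` or `8 ∣ D`, and
such that `3` is split or ramified in `ℚ(√D)` (any number of prime factors of any kind), and let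
`n = |D|` or `|D| / 4` be squarefree with `ℚ(√D) = ℚ(√-n)`; these are the squarefree `n` with `n ≡ 3`
modulo `8` or `n ≡ 2` modulo `4`, and `n ≢ 1` modulo `3`. `E_n : y² = x (x + n) (x - 3 n)` is the
quadratic twist of `X_0(24) : y² = x (x - 1) (x + 3)` by `-n`.
Let `z = L(E_n, 1) #E_n(ℚ)_tors² / (Ω ∏ c_p)`, which according to the conjecture is zero or the order of
`Ш(E_n/ℚ)`.  With no hypothesis on the rank or on `Ш` we prove, for all these `n`:
* the equation of `E_n` is a global minimal one, `L(E_n, s)` is entire, `#E_n(ℚ)_tors = 4`, `∏ c_p` is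
  `4^ω(n)` times `2` for each of `2`, `3` which does not divide `n`;
* `z = y²` is the square of an integer;
* `y` is odd if and only if `E_n(ℚ)` is finite and `Ш(E_n/ℚ)[2] = 0`, if and only if the ideal class
  group of `ℚ(√-n)` has no element of order four;
* in this case `L(E_n, 1) ≠ 0` and `Ш(E_n/ℚ)[2^∞] = 0`, so that the 2-part of the formula holds;
* the natural density of these discriminants (ordered by `|D|`) in the family is
  `η = ∏_{i ≥ 1} (1 - 2^{-i}) = 0.2888…`.

In particular the 2-part of the conjecture of Birch and Swinnerton-Dyer holds for a positive proportion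
(natural density) of all the quadratic twists of the curve `X_0(24)`.

Proof: the diagonal sums of the minus modular symbol over the residues modulo `D` are squares of the
Gross sums over the representations of `n` by three squares (an identity of divisor sums), the parity of
the Gross sum is determined by Eichler's formula for the number of pairs of vectors with given inner
products, the modularity of `X_0(24)` and its twists, the comparison of the periods, a full 2-descent,
Tamagawa numbers, and the natural density of the 4-rank zero. The modules are joint work of many helpers: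
`N877/P24`, `N878/P24`, `N878/P24x`, `N9/P24x`, `N42/P24x`, `N218/P24`, `N490/P24`, `N579/P24`,
`N123/P24`, `N789/P24`, `N763/P24`, `N488/P24` (elementary identities), `N971/MF`, `N974/MF`,
`N402/P24L` (modularity, central values), `N373/P24`, `N373/P24x`, `N875/X15` (descent and class groups),
`N916` (density), and the modules which they import.
-/

set_option autoImplicit false
set_option linter.style.haveILetI false

open WeierstrassCurve MeasureTheory Filter Topology Finset

namespace Pool.Agent.Results.MP_92892c_nt.TwoPartTwistsX24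

open scoped Classical

open Pool.Agent.TH841.SH.D (Sha)

/-- The numbers `n`: squarefree, `n ≡ 3` modulo `8` or `n ≡ 2` modulo `4`, and `n ≢ 1` modulo `3`. -/
def Good (n : ℕ) : Prop := Squarefree n ∧ (n % 8 = 3 ∨ n % 4 = 2) ∧ n % 3 ≠ 1

/-- `-N` is a fundamental discriminant. -/
def FundNeg (N : ℕ) : Prop := (Squarefree N ∧ N % 4 = 3) ∨
  ∃ m : ℕ, N = 4 * m ∧ Squarefree m ∧ (m % 4 = 1 ∨ m % 4 = 2)

/-- The family: `-N` is a fundamental discriminant, `2` is inert or `8 ∣ N`, `3` is not inert in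
`ℚ(√-N)`. -/
def Family (N : ℕ) : Prop := FundNeg N ∧ (N % 8 = 3 ∨ 8 ∣ N) ∧ N % 3 ≠ 1

/-- The squarefree number `n` with `ℚ(√-N) = ℚ(√-n)`. -/
def sf (N : ℕ) : ℕ := if N % 2 = 1 then N else N / 4

/-- The quadratic twist of `X_0(24) : y² = x (x - 1) (x + 3)` by `-n`:
`y² = x (x + n) (x - 3 n) = x³ - 2 n x² - 3 n² x`. -/
def twist (n : ℕ) : WeierstrassCurve ℤ := ⟨0, -2 * n, 0, -3 * n ^ 2, 0⟩

/-- The curve given by the equation of `W` over the ring `R`. -/
abbrev base (W : WeierstrassCurve ℤ) (R : Type) [CommRing R] : WeierstrassCurve R :=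
  W.map (Int.castRingHom R)

/-- `W` is a global minimal equation: `Δ ≠ 0` and `|Δ|` is minimal among the integral equations of the
same curve over `ℚ`. -/
def Minimal (W : WeierstrassCurve ℤ) : Prop :=
  W.Δ ≠ 0 ∧ ∀ (W' : WeierstrassCurve ℤ) (C : VariableChange ℚ), C • base W ℚ = base W' ℚ →
    |W.Δ| ≤ |W'.Δ|

/-- `L` is the entire continuation of the L-function of the curve `W` over `ℚ` (the L-series is that of
Mathlib). -/
def IsL (W : WeierstrassCurve ℤ) (L : ℂ → ℂ) : Prop :=
  Differentiable ℂ L ∧ ∀ s : ℂ, 2 < s.re → L s = (base W ℚ).LSeries s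

/-- The point `P` of `W` over `ℚ_p` reduces to a singular point of the curve modulo `p`: the coordinates
are integral and both partial derivatives of `y² + a₁ x y + a₃ y - x³ - a₂ x² - a₄ x - a₆` are in the
maximal ideal. -/
def SingularReduction (W : WeierstrassCurve ℤ) (p : ℕ) [Fact p.Prime]
    (P : (base W ℚ_[p]).toAffine.Point) : Prop :=
  ∃ x y h, P = Affine.Point.some x y h ∧ ‖x‖ ≤ 1 ∧ ‖y‖ ≤ 1 ∧
    ‖W.a₁ * y - (3 * x ^ 2 + 2 * W.a₂ * x + W.a₄)‖ < 1 ∧ ‖2 * y + W.a₁ * x + W.a₃‖ < 1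

/-- `c p` is the Tamagawa number `[W(ℚ_p) : W⁰(ℚ_p)]` for all primes `p`, where `W⁰(ℚ_p)` is the subgroup
of the points which do not have singular reduction; it is `1` if `p` does not divide `Δ`. -/
def IsTamagawa (W : WeierstrassCurve ℤ) (c : ℕ → ℕ) : Prop :=
  ∀ (p : ℕ) [Fact p.Prime], (∃ H : AddSubgroup (base W ℚ_[p]).toAffine.Point,
    (∀ P, P ∈ H ↔ ¬ SingularReduction W p P) ∧ H.index = c p) ∧ (¬ (p : ℤ) ∣ W.Δ → c p = 1)

/-- The product of the Tamagawa numbers. -/
noncomputable def Tam (W : WeierstrassCurve ℤ) (c : ℕ → ℕ) : ℕ := ∏ p ∈ W.Δ.natAbs.primeFactors, c p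

/-- `4 x³ + b₂ x² + 2 b₄ x + b₆ = (2 y + a₁ x + a₃)²`. -/
def cubic (W : WeierstrassCurve ℤ) (x : ℝ) : ℝ := 4 * x ^ 3 + W.b₂ * x ^ 2 + 2 * W.b₄ * x + W.b₆

/-- `Ω = ∫_{W(ℝ)} |ω|` with `ω = dx / (2 y + a₁ x + a₃)`, as an integral over `x`: two real points lie
over each `x` with `cubic x > 0`. -/
noncomputable def Omega (W : WeierstrassCurve ℤ) : ℝ :=
  2 * ∫ x in {x : ℝ | 0 < cubic W x}, 1 / √(cubic W x)

/-- The order of the torsion subgroup of `W(ℚ)`. -/
noncomputable def torsOrder (W : WeierstrassCurve ℤ) : ℕ :=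
  Nat.card (AddCommGroup.torsion (base W ℚ).toAffine.Point)

/-- The order of the Tate-Shafarevich group predicted by the formula in rank zero, for the value `l` of
the L-function at `s = 1` and the Tamagawa numbers `c`: `l #W(ℚ)_tors² / (Ω ∏ c_p)`. -/
noncomputable def anOrder (W : WeierstrassCurve ℤ) (l : ℂ) (c : ℕ → ℕ) : ℂ :=
  l * (torsOrder W : ℂ) ^ 2 / ((Omega W : ℝ) * (Tam W c : ℂ))

/-- The 2-part of the strong conjecture of Birch and Swinnerton-Dyer for `W` over `ℚ`, in the case that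
the predicted order of `Ш` is odd: `W` is minimal, `W(ℚ)` is finite, the 2-primary part of `Ш(W/ℚ)` is
zero, `L(W, s)` is entire, `L(W, 1) ≠ 0`, and the predicted order of `Ш` is the square of an odd
integer. -/
def TwoPart (W : WeierstrassCurve ℤ) : Prop :=
  Minimal W ∧ Finite (base W ℚ).toAffine.Point ∧
  (∀ (k : ℕ) (x : Sha (base W ℚ)), 2 ^ k • x = 0 → x = 0) ∧
  ∃ (L : ℂ → ℂ) (c : ℕ → ℕ) (y : ℤ), IsL W L ∧ L 1 ≠ 0 ∧ IsTamagawa W c ∧ 0 < Tam W c ∧
    0 < Omega W ∧ 0 < torsOrder W ∧ anOrder W (L 1) c = (y : ℂ) ^ 2 ∧ Odd y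

/-- The group `E_n(ℚ)` is finite and `Ш(E_n/ℚ)` has no element of order two. -/
def RankZeroShaTwo (n : ℕ) : Prop :=
  Finite (base (twist n) ℚ).toAffine.Point ∧ ∀ x : Sha (base (twist n) ℚ), 2 • x = 0 → x = 0

/-- The ideal class group of `ℚ(√-n)` has no element of order four. -/
def NoOrderFour (n : ℕ) : Prop :=
  ∀ (K : Type) [Field K] [NumberField K], Module.finrank ℚ K = 2 → (∃ s : K, s ^ 2 = -(n : K)) →
    ∀ c : ClassGroup (NumberField.RingOfIntegers K), orderOf c ≠ 4

/-- The statement for a number `n`. -/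
def Formula (n : ℕ) : Prop :=
  Minimal (twist n) ∧
  (∃ (L : ℂ → ℂ) (c : ℕ → ℕ) (y : ℤ), IsL (twist n) L ∧ IsTamagawa (twist n) c ∧
    Tam (twist n) c =
      (if 2 ∣ n then 1 else 2) * (if 3 ∣ n then 1 else 2) * 4 ^ n.primeFactors.card ∧
    torsOrder (twist n) = 4 ∧ 0 < Omega (twist n) ∧
    anOrder (twist n) (L 1) c = (y : ℂ) ^ 2 ∧ (Odd y ↔ RankZeroShaTwo n)) ∧
  (RankZeroShaTwo n ↔ NoOrderFour n) ∧
  (RankZeroShaTwo n ↔ TwoPart (twist n))

/-- The number of the `N ≤ X` of the family. -/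
noncomputable def total (X : ℕ) : ℕ := ((Icc 1 X).filter fun N => Family N).card

/-- The number of the `N ≤ X` of the family for which the 2-part of the formula holds with an odd
predicted order. -/
noncomputable def good (X : ℕ) : ℕ :=
  ((Icc 1 X).filter fun N => Family N ∧ TwoPart (twist (sf N))).card

/-- `η = ∏_{i ≥ 1} (1 - 2^{-i})` -/
noncomputable def eta : ℝ := ∏' i : ℕ, (1 - (1 / 2 : ℝ) ^ (i + 1))

section proof

open Pool.Agent.N877.P24.All (Val Tm QQ val_all crit_all sha_all)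
open Pool.Agent.N373.P24.Forms (W24)
open Pool.Agent.N373.P24x (cX)
open Pool.Agent.N969.P15 (Qe)

lemma twist_eq (n : ℕ) : twist n = W24 n := rfl

lemma base_eq (n : ℕ) : base (twist n) ℚ = Pool.Agent.N373.P24.EQm (-(n : ℤ)) := by
  rw [twist_eq, Pool.Agent.N373.P24.Forms.W24_eq]

lemma rank_iff {n : ℕ} (h : Good n) : RankZeroShaTwo n ↔ QQ n := by
  rw [← crit_all h.1 h.2.1 h.2.2]
  unfold RankZeroShaTwo
  rw [base_eq]
  refine and_congr Iff.rfl (forall_congr' fun x => ?_)
  rw [two_nsmul]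

lemma order_iff {G : Type} [Group G] : (∀ c : G, orderOf c ≠ 4) ↔ ∀ c : G, c ^ 4 = 1 → c ^ 2 = 1 := by
  constructor
  · intro h c h4
    by_contra h2
    refine h c ?_
    have := orderOf_eq_prime_pow (x := c) (p := 2) (n := 1) (by simpa using h2)
      (by norm_num; exact h4)
    simpa using this
  · intro h c h4
    have h1 : c ^ 4 = 1 := by rw [← h4]; exact pow_orderOf_eq_one c
    have h2 := orderOf_dvd_of_pow_eq_one (h c h1)
    rw [h4] at h2
    omega

lemma Good.pos {n : ℕ} (h : Good n) : 0 < n := by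
  have h1 := h.2.1
  have h2 := h.1.ne_zero
  omega

lemma Good.one_lt {n : ℕ} (h : Good n) : 1 < n := by
  have h1 := h.2.1
  omega

lemma class_iff {n : ℕ} (h : Good n) : NoOrderFour n ↔ QQ n := by
  have h0 := h.pos
  have key : ∀ (K : Type) [Field K] [NumberField K], Module.finrank ℚ K = 2 →
      (∃ s : K, s ^ 2 = -(n : K)) →
      ((∀ c : ClassGroup (NumberField.RingOfIntegers K), orderOf c ≠ 4) ↔ QQ n) := by
    intro K _ _ h6 h7
    rw [order_iff]
    rcases h.2.1 with h8 | h8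
    · rw [Pool.Agent.N875.X15.qc_iff_class h.1 (by omega) K h6 h7,
        ← Pool.Agent.N373.P24.qc_iff h0.ne']
      exact ⟨fun h9 => ⟨fun _ => h9, fun h10 => by omega⟩, fun h9 => h9.1 (by omega)⟩
    · have h9 : ∃ s : K, s ^ 2 = -((4 * n / 4 : ℕ) : K) := by
        rw [Nat.mul_div_cancel_left n (by norm_num)]
        exact h7
      rw [Pool.Agent.N875.X15.qe_iff_class ⟨n, rfl, h.1, Or.inr h8⟩ (by omega) K h6 h9]
      exact ⟨fun h9 => ⟨fun h10 => by omega, fun _ => h9⟩, fun h9 => h9.2 (by omega)⟩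
  constructor
  · intro h8
    obtain ⟨K, i1, i2, h6, h7⟩ := Pool.Agent.N969.P15.exists_qf h0
    exact (key K h6 h7).1 (h8 K h6 h7)
  · intro h8 K i1 i2 h6 h7
    exact (key K h6 h7).2 h8

lemma W_eq (n : ℕ) : Pool.Agent.N971.MF.W n = twist n := by
  unfold Pool.Agent.N971.MF.W twist
  congr 1

lemma omega_eq (n : ℕ) : Omega (twist n) = 2 * ∫ x in {x : ℝ |
    0 < Pool.Agent.N971.MF.cubic (Pool.Agent.N971.MF.W n) x},
      1 / √(Pool.Agent.N971.MF.cubic (Pool.Agent.N971.MF.W n) x) := by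
  rw [W_eq]
  rfl

/-- the main facts -/
theorem core {n : ℕ} (h : Good n) :
    ∃ (L : ℂ → ℂ) (y : ℤ), IsL (twist n) L ∧ torsOrder (twist n) = 4 ∧ 0 < Omega (twist n) ∧
    anOrder (twist n) (L 1) (cX n) = (y : ℂ) ^ 2 ∧ (Odd y ↔ QQ n) ∧ (y ≠ 0 → L 1 ≠ 0) := by
  obtain ⟨y, ⟨L, hL1, hL2, hL3, hL4⟩, hy⟩ := val_all h.1 h.2.1 h.2.2
  have htor : torsOrder (twist n) = 4 := Pool.Agent.N373.P24x.tors_fourX h.1 h.one_lt
  have hTm : Tam (twist n) (cX n) = Tm n := Pool.Agent.N373.P24x.tamX h.1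
  have hTm0 : (Tm n : ℝ) ≠ 0 := by
    unfold Tm
    have : (if 2 ∣ n then 1 else 2) * (if 3 ∣ n then 1 else 2) * 4 ^ n.primeFactors.card ≠ 0 := by
      split_ifs <;> positivity
    exact_mod_cast this
  have hΩ : 0 < Omega (twist n) := by
    rw [omega_eq]
    linarith
  rw [← omega_eq] at hL3
  have hΩC : ((Omega (twist n) : ℝ) : ℂ) ≠ 0 := by exact_mod_cast hΩ.ne'
  have hTC : ((Tm n : ℕ) : ℂ) ≠ 0 := by exact_mod_cast hTm0
  refine ⟨L, y, ⟨hL1, fun s hs => ?_⟩, htor, hΩ, ?_, hy, ?_⟩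
  · rw [hL2 s hs, W_eq]
  · unfold anOrder
    rw [hL3, htor, hTm]
    push_cast
    field_simp
    ring
  · intro hy0 hL0
    rw [hL0] at hL3
    have h5 : (y : ℝ) ^ 2 * Tm n / 16 * Omega (twist n) = 0 := by
      exact_mod_cast hL3.symm
    have h6 : (y : ℝ) ≠ 0 := by exact_mod_cast hy0
    exact absurd h5 (mul_ne_zero (div_ne_zero (mul_ne_zero (pow_ne_zero 2 h6) hTm0) (by norm_num))
      hΩ.ne')

theorem formula {n : ℕ} (h : Good n) : Formula n := by
  have hmin : Minimal (twist n) := Pool.Agent.N373.P24x.minimalX h.1 h.2.1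
  have htw : IsTamagawa (twist n) (cX n) := Pool.Agent.N373.P24x.tamagawaX h.1 h.2.1
  have hTm : Tam (twist n) (cX n) =
      (if 2 ∣ n then 1 else 2) * (if 3 ∣ n then 1 else 2) * 4 ^ n.primeFactors.card :=
    Pool.Agent.N373.P24x.tamX h.1
  obtain ⟨L, y, h1, h2, h3, h4, h5, h6⟩ := core h
  refine ⟨hmin, ⟨L, cX n, y, h1, htw, hTm, h2, h3, h4, h5.trans (rank_iff h).symm⟩,
    (rank_iff h).trans (class_iff h).symm, fun hR => ?_, fun hP => ?_⟩
  · have hy : Odd y := h5.2 ((rank_iff h).1 hR)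
    have hy0 : y ≠ 0 := by
      rintro rfl
      exact absurd hy (by decide)
    refine ⟨hmin, hR.1, ?_, L, cX n, y, h1, h6 hy0, htw, ?_, h3, ?_, h4, hy⟩
    · rw [base_eq]
      exact fun k x hx => sha_all h.1 h.2.1 h.2.2 ((rank_iff h).1 hR) k x hx
    · rw [hTm]
      split_ifs <;> positivity
    · rw [h2]
      norm_num
  · refine ⟨hP.2.1, fun x hx => hP.2.2.1 1 x ?_⟩
    rwa [pow_one]

/-! the family and the density -/

lemma good_sf {N : ℕ} (h : Family N) : Good (sf N) := by
  obtain ⟨h1, h2, h3⟩ := h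
  unfold sf
  rcases h1 with ⟨hs, h4⟩ | ⟨m, rfl, hs, h4⟩
  · rw [if_pos (by omega)]
    exact ⟨hs, by omega, h3⟩
  · rw [if_neg (by omega), Nat.mul_div_cancel_left m (by norm_num)]
    exact ⟨hs, by omega, by omega⟩

lemma fd_iff (N : ℕ) : Pool.Agent.N916.TE.FD N ↔ FundNeg N := Iff.rfl

lemma go_iff {N : ℕ} (h : Family N) : Pool.Agent.N916.TE.Go N ↔ QQ (sf N) := by
  obtain ⟨h1, h2, h3⟩ := h
  unfold sf Pool.Agent.N916.TE.Go QQ
  rcases h1 with ⟨hs, h4⟩ | ⟨m, rfl, hs, h4⟩
  · rw [if_pos (by omega)]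
    have e : Pool.Agent.N969.P15.Qc N ↔ Pool.Agent.N877.P24.Qc N := by
      rw [Pool.Agent.N373.P24.qc_iff hs.ne_zero, Pool.Agent.N875.X15.qc_P15 hs.ne_zero]
    constructor
    · exact fun h => ⟨fun _ => e.1 (h.1 (by omega)), fun h0 => by omega⟩
    · exact fun h => ⟨fun _ => e.2 (h.1 (by omega)), fun h0 => by omega⟩
  · rw [if_neg (by omega), Nat.mul_div_cancel_left m (by norm_num)]
    constructor
    · exact fun h => ⟨fun h0 => by omega, fun _ => h.2 (by omega)⟩
    · exact fun h => ⟨fun h0 => by omega, fun _ => h.2 (by omega)⟩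

end proof

/-- **Main theorem.** The formula, the criterion and the 2-part for all the `n`, and the natural density
of the twists whose 2-part is proved in the form `Ш(E_n/ℚ)[2^∞] = 0`. -/
theorem result :
    (∀ n : ℕ, Good n → Formula n) ∧
    (∀ N : ℕ, Family N → Good (sf N)) ∧
    Tendsto (fun X : ℕ => (good X : ℝ) / (total X : ℝ)) atTop (𝓝 eta) ∧
    0.2887 < eta ∧ eta < 0.2889 ∧
    ∃ (a : ℝ) (X₀ : ℕ), 0 < a ∧ ∀ X : ℕ, X₀ ≤ X → a * X ≤ (good X : ℝ) := by
  have he : eta = Pool.Agent.N916.GB.eta := rfl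
  have hb := Pool.Agent.N916.GB.eta_bounds
  rw [← he] at hb
  have hd : Tendsto (fun X : ℕ => (good X : ℝ) / (total X : ℝ)) atTop (𝓝 eta) := by
    have h := Pool.Agent.N916.AM.density_mod (m := 48) (by norm_num)
      (R := (Finset.range 48).filter fun r => (r % 8 = 3 ∨ r % 8 = 0) ∧ r % 3 ≠ 1) (n₀ := 3)
      Nat.prime_three.squarefree (by norm_num) (by decide)
    rw [← he] at h
    have hR : ∀ n : ℕ, n % 48 ∈ (Finset.range 48).filter (fun r =>
        (r % 8 = 3 ∨ r % 8 = 0) ∧ r % 3 ≠ 1) ↔ ((n % 8 = 3 ∨ 8 ∣ n) ∧ n % 3 ≠ 1) := by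
      intro n
      rw [Finset.mem_filter, Finset.mem_range]
      have h1 : n % 48 % 3 = n % 3 := Nat.mod_mod_of_dvd n (by norm_num)
      have h2 : n % 48 % 8 = n % 8 := Nat.mod_mod_of_dvd n (by norm_num)
      rw [h1, h2]
      constructor
      · rintro ⟨-, h3, h4⟩
        exact ⟨by omega, h4⟩
      · rintro ⟨h3, h4⟩
        exact ⟨Nat.mod_lt _ (by norm_num), by omega, h4⟩
    simp only [hR] at h
    refine h.congr fun X => congrArg₂ (fun a b : ℕ => (a : ℝ) / (b : ℝ)) ?_ ?_
    · refine congrArg Finset.card (Finset.ext fun n => ?_)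
      refine (Finset.mem_filter).trans (Iff.trans ?_ (Finset.mem_filter).symm)
      refine and_congr_right fun _ => ?_
      constructor
      · rintro ⟨h1, h2, h3⟩
        have hF : Family n := ⟨h1, h2⟩
        exact ⟨hF, (formula (good_sf hF)).2.2.2.1 ((rank_iff (good_sf hF)).2 ((go_iff hF).1 h3))⟩
      · rintro ⟨h1, h2⟩
        exact ⟨h1.1, h1.2, (go_iff h1).2 ((rank_iff (good_sf h1)).1
          ((formula (good_sf h1)).2.2.2.2 h2))⟩
    · refine congrArg Finset.card (Finset.ext fun n => ?_)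
      refine (Finset.mem_filter).trans (Iff.trans ?_ (Finset.mem_filter).symm)
      exact Iff.rfl
  refine ⟨fun n h => formula h, fun N h => good_sf h, hd, hb.1, hb.2, 28 / 48000, ?_⟩
  have hev := hd.eventually (lt_mem_nhds (show (28 / 100 : ℝ) < eta by linarith [hb.1]))
  obtain ⟨X₁, hX₁⟩ := eventually_atTop.1 hev
  refine ⟨max X₁ 400000, by norm_num, fun X hX => ?_⟩
  have h1 := hX₁ X (le_trans (le_max_left _ _) hX)
  have h2 := Pool.Agent.N916.GB.low (a := 11) (by norm_num) (by norm_num) X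
    (le_trans (le_max_right _ _) hX)
  have h3 : (((Icc 1 X).filter fun D => Squarefree D ∧ D % 120 = 11).card : ℝ) ≤
      (total X : ℝ) := by
    have : ((Icc 1 X).filter fun D => Squarefree D ∧ D % 120 = 11).card ≤ total X := by
      refine card_le_card fun n hn => ?_
      obtain ⟨ha, hb', hc⟩ := Finset.mem_filter.1 hn
      exact Finset.mem_filter.2 ⟨ha, Or.inl ⟨hb', by omega⟩, Or.inl (by omega), by omega⟩
    exact_mod_cast this
  have hXp : (0 : ℝ) < X := by
    have : 400000 ≤ X := le_trans (le_max_right _ _) hX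
    exact_mod_cast (by omega : 0 < X)
  have h4 : (0 : ℝ) < (total X : ℝ) := by linarith
  rw [lt_div_iff₀ h4] at h1
  linarith

end Pool.Agent.Results.MP_92892c_nt.TwoPartTwistsX24
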